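import Mathlib

namespace H27.E8

open Finset

/-- Hensel lifting of a square root of `-D` modulo powers of an odd prime. -/
theorem lift_sqrt (p : ℕ) (hp : p.Prime) (hp2 : p ≠ 2) (D : ℤ) (hD : ¬ (p : ℤ) ∣ D)
    (s0 : ℤ) (h0 : (p : ℤ) ∣ s0 ^ 2 + D) :
    ∀ N : ℕ, ∃ s : ℤ, (p : ℤ) ^ N ∣ s ^ 2 + D := by
  have hpi : Prime (p : ℤ) := Nat.prime_iff_prime_int.mp hp
  have key : ∀ N : ℕ, ∃ s : ℤ, (p : ℤ) ^ (N + 1) ∣ s ^ 2 + D := by
    intro N
    induction N with
    | zero => exact ⟨s0, by simpa using h0⟩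
    | succ N ih =>
      obtain ⟨s, q, hq⟩ := ih
      have hps : ¬ (p : ℤ) ∣ s := by
        intro hs
        apply hD
        have h1 : (p : ℤ) ∣ s ^ 2 + D := by
          rw [hq]; exact dvd_mul_of_dvd_left (dvd_pow_self _ (Nat.succ_ne_zero _)) _
        have h2 : (p : ℤ) ∣ s ^ 2 := dvd_pow hs two_ne_zero
        exact (dvd_add_right h2).mp h1
      have hp2s : ¬ (p : ℤ) ∣ 2 * s := by
        intro h
        rcases hpi.dvd_or_dvd h with h | h
        · have : p ∣ 2 := by exact_mod_cast h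
          exact hp2 ((Nat.prime_dvd_prime_iff_eq hp Nat.prime_two).mp this)
        · exact hps h
      have hcop : IsCoprime (2 * s) (p : ℤ) := by
        rw [isCoprime_comm]
        exact (Prime.coprime_iff_not_dvd hpi).mpr hp2s
      obtain ⟨a, b, hab⟩ := hcop
      refine ⟨s - p ^ (N + 1) * (a * q), ?_⟩
      have hexp : (s - (p : ℤ) ^ (N + 1) * (a * q)) ^ 2 + D
          = (s ^ 2 + D) - p ^ (N + 1) * (a * (2 * s) * q)
            + (p : ℤ) ^ (N + 1) * p ^ (N + 1) * (a * q) ^ 2 := by ring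
      rw [hexp, hq]
      have h3 : (p : ℤ) ^ (N + 1) * q - p ^ (N + 1) * (a * (2 * s) * q)
          = (p : ℤ) ^ (N + 1 + 1) * (b * q) := by
        have : a * (2 * s) = 1 - b * p := by linarith
        rw [this]; ring
      rw [h3]
      apply dvd_add (dvd_mul_right _ _)
      apply dvd_mul_of_dvd_left
      rw [← pow_add]
      exact pow_dvd_pow _ (by omega)
  intro N
  obtain ⟨s, hs⟩ := key N
  exact ⟨s, (pow_dvd_pow _ (Nat.le_succ N)).trans hs⟩

/-- For an odd prime not dividing `D` some `a ^ 2 + D` is a nonsquare modulo `p`. -/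
theorem exists_nonsq (p : ℕ) [Fact p.Prime] (hp2 : p ≠ 2) (D : ZMod p) (hD : D ≠ 0) :
    ∃ a : ZMod p, ¬ IsSquare (a ^ 2 + D) := by
  by_contra hcon
  push Not at hcon
  have h1 : ∀ k : ℕ, IsSquare ((k : ZMod p) * D) := by
    intro k
    induction k with
    | zero => simp
    | succ k ih =>
      obtain ⟨r, hr⟩ := ih
      have := hcon r
      have he : ((k + 1 : ℕ) : ZMod p) * D = r ^ 2 + D := by
        push_cast; rw [add_mul, hr]; ring
      rw [he]; exact this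
  obtain ⟨a, ha⟩ := FiniteField.exists_nonsquare (F := ZMod p)
    (by rw [ZMod.ringChar_zmod_n]; exact hp2)
  apply ha
  have h2 := h1 (a / D).val
  rw [ZMod.natCast_zmod_val, div_mul_cancel₀ _ hD] at h2
  exact h2

/-- The descent on the distance at a nonsplit prime. -/
theorem descent (p : ℕ) (hp : p.Prime) (c D α : ℤ) (hc : ¬ (p : ℤ) ∣ c)
    (h1 : ∀ X Y z : ℤ, z ^ 2 = X ^ 2 + D * Y ^ 2 → (p : ℤ) ∣ z → (p : ℤ) ∣ X ∧ (p : ℤ) ∣ Y)
    (h2 : ∀ X Y z : ℤ, z ^ 2 = X ^ 2 + D * Y ^ 2 → (p : ℤ) ∣ X - α * Y → (p : ℤ) ∣ z) :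
    ∀ d : ℕ, 0 < d → ∀ X Y : ℤ, (c * d) ^ 2 = X ^ 2 + D * Y ^ 2 →
      ∃ m : ℤ, ¬ (p : ℤ) ∣ m ∧ (X - α * Y) ∣ m * d := by
  have hpi : Prime (p : ℤ) := Nat.prime_iff_prime_int.mp hp
  intro d
  induction d using Nat.strong_induction_on with
  | _ d ih =>
    intro hd X Y hXY
    by_cases hpd : p ∣ d
    · obtain ⟨d', rfl⟩ := hpd
      have hpz : (p : ℤ) ∣ c * ((p * d' : ℕ) : ℤ) := by
        push_cast; exact ⟨c * d', by ring⟩
      obtain ⟨⟨X', rfl⟩, ⟨Y', rfl⟩⟩ := h1 X Y _ hXY hpz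
      have hd' : 0 < d' := Nat.pos_of_mul_pos_left hd
      have hlt : d' < p * d' := by
        have := hp.two_le
        nlinarith
      have hp0 : (p : ℤ) ≠ 0 := by exact_mod_cast hp.ne_zero
      have hXY' : (c * (d' : ℤ)) ^ 2 = X' ^ 2 + D * Y' ^ 2 := by
        have : (p : ℤ) ^ 2 * (c * (d' : ℤ)) ^ 2 = (p : ℤ) ^ 2 * (X' ^ 2 + D * Y' ^ 2) := by
          push_cast at hXY; linear_combination hXY
        exact mul_left_cancel₀ (pow_ne_zero 2 hp0) this
      obtain ⟨m, hm, q, hq⟩ := ih d' hlt hd' X' Y' hXY'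
      refine ⟨m, hm, q, ?_⟩
      push_cast
      linear_combination (p : ℤ) * hq
    · refine ⟨X - α * Y, ?_, dvd_mul_right _ _⟩
      intro hdiv
      have := h2 X Y _ hXY hdiv
      rcases hpi.dvd_or_dvd this with h | h
      · exact hc h
      · exact hpd (by exact_mod_cast h)

end H27.E8
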