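import Mathlib

namespace H27.E8

open Finset

/-- Integral coordinates (the characteristic of an integral point set), real form. -/
theorem coords {n : ℕ} (X Y : Fin (n + 1) → ℝ) (d : Fin (n + 1) → Fin (n + 1) → ℕ)
    (hd : ∀ i j, (X i - X j) ^ 2 + (Y i - Y j) ^ 2 = (d i j : ℝ) ^ 2) (i0 i1 : Fin (n + 1)) :
    ∃ D : ℕ, Squarefree D ∧ ∃ x y : Fin (n + 1) → ℤ, ∀ i j,
      (2 * (d i0 i1 : ℤ) * (d i j : ℤ)) ^ 2 = (x i - x j) ^ 2 + (D : ℤ) * (y i - y j) ^ 2 := by
  set u0 : ℝ := X i1 - X i0 with hu0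
  set u1 : ℝ := Y i1 - Y i0 with hu1
  set U : Fin (n + 1) → ℝ := fun i => 2 * (u0 * (X i - X i0) + u1 * (Y i - Y i0)) with hU
  set V : Fin (n + 1) → ℝ := fun i => 2 * (u0 * (Y i - Y i0) - u1 * (X i - X i0)) with hV
  have ha : u0 ^ 2 + u1 ^ 2 = (d i0 i1 : ℝ) ^ 2 := by
    rw [← hd i0 i1, hu0, hu1]; ring
  have hUV : ∀ i j, (U i - U j) ^ 2 + (V i - V j) ^ 2 = (2 * (d i0 i1 : ℝ) * (d i j : ℝ)) ^ 2 := by
    intro i j
    have : (U i - U j) ^ 2 + (V i - V j) ^ 2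
        = 4 * (u0 ^ 2 + u1 ^ 2) * ((X i - X j) ^ 2 + (Y i - Y j) ^ 2) := by
      simp only [hU, hV]; ring
    rw [this, ha, hd i j]; ring
  set x : Fin (n + 1) → ℤ := fun i =>
    (d i0 i1 : ℤ) ^ 2 + (d i0 i : ℤ) ^ 2 - (d i1 i : ℤ) ^ 2 with hx
  have hUx : ∀ i, U i = (x i : ℝ) := by
    intro i
    simp only [hx, hU]
    push_cast
    rw [← ha, ← hd i0 i, ← hd i1 i, hu0, hu1]
    ring
  -- squares of differences of `V` are integers
  set q : Fin (n + 1) → Fin (n + 1) → ℤ := fun i j =>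
    (2 * (d i0 i1 : ℤ) * (d i j : ℤ)) ^ 2 - (x i - x j) ^ 2 with hq
  have hVq : ∀ i j, (V i - V j) ^ 2 = (q i j : ℝ) := by
    intro i j
    have := hUV i j
    rw [hUx i, hUx j] at this
    simp only [hq]
    push_cast
    linarith
  have hV0 : V i0 = 0 := by simp only [hV]; ring
  by_cases hall : ∀ i, V i = 0
  · refine ⟨1, squarefree_one, x, fun _ => 0, ?_⟩
    intro i j
    have h1 := hUV i j
    rw [hall i, hall j, hUx i, hUx j] at h1
    have h2 : ((2 * (d i0 i1 : ℤ) * (d i j : ℤ)) ^ 2 : ℝ) = ((x i - x j) ^ 2 : ℝ) := by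
      push_cast; linarith
    have h3 : (2 * (d i0 i1 : ℤ) * (d i j : ℤ)) ^ 2 = (x i - x j) ^ 2 := by exact_mod_cast h2
    rw [h3]; ring
  · push Not at hall
    obtain ⟨c, hc⟩ := hall
    have hM : V c ^ 2 = (q c i0 : ℝ) := by
      have := hVq c i0; rw [hV0, sub_zero] at this; exact this
    have hMpos : 0 < q c i0 := by
      have h : (0 : ℝ) < (q c i0 : ℝ) := by rw [← hM]; positivity
      exact_mod_cast h
    obtain ⟨M, hMn⟩ := Int.eq_ofNat_of_zero_le hMpos.le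
    have hM0 : 0 < M := by
      have h := hMpos; rw [hMn] at h; exact_mod_cast h
    obtain ⟨D, s, hDs, hDsq⟩ := Nat.sq_mul_squarefree M
    -- hDs : s ^ 2 * D = M, order of existential may vary
    have hkey : ∀ i, ∃ y : ℤ, V i * V c = (s : ℝ) * D * y := by
      intro i
      -- integer t = 2 V i V c
      set t : ℤ := q i i0 + q c i0 - q i c with ht
      have ht' : 2 * (V i * V c) = (t : ℝ) := by
        have h1 : V i ^ 2 = (q i i0 : ℝ) := by
          have := hVq i i0; rw [hV0, sub_zero] at this; exact this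
        have h2 := hVq i c
        simp only [ht]; push_cast
        rw [← h1, ← hM, ← h2]; ring
      have hVi : V i ^ 2 = (q i i0 : ℝ) := by
        have := hVq i i0; rw [hV0, sub_zero] at this; exact this
      have ht2 : t ^ 2 = 4 * q i i0 * ((s : ℤ) ^ 2 * D) := by
        have h1 : (t : ℝ) ^ 2 = 4 * (q i i0 : ℝ) * ((s : ℝ) ^ 2 * D) := by
          rw [← ht', ← hVi]
          have h2 : (V c) ^ 2 = ((s : ℝ) ^ 2 * D) := by
            rw [hM, hMn, ← hDs]; push_cast; ring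
          rw [← h2]; ring
        exact_mod_cast h1
      have hs0 : s ≠ 0 := by
        rintro rfl
        simp at hDs; omega
      have hdiv1 : (2 * (s : ℤ)) ∣ t := by
        have : (2 * (s : ℤ)) ^ 2 ∣ t ^ 2 := ⟨q i i0 * D, by rw [ht2]; ring⟩
        exact (Int.pow_dvd_pow_iff two_ne_zero).mp this
      obtain ⟨t', ht'e⟩ := hdiv1
      have h3 : t' ^ 2 = q i i0 * D := by
        have h4 : (2 * (s : ℤ)) ^ 2 * t' ^ 2 = (2 * (s : ℤ)) ^ 2 * (q i i0 * D) := by
          have : t ^ 2 = (2 * (s : ℤ)) ^ 2 * t' ^ 2 := by rw [ht'e]; ring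
          rw [← this, ht2]; ring
        have hs0' : (2 * (s : ℤ)) ^ 2 ≠ 0 := by
          have : (s : ℤ) ≠ 0 := by exact_mod_cast hs0
          positivity
        exact mul_left_cancel₀ hs0' h4
      have hDz : Squarefree (D : ℤ) := Int.squarefree_natCast.mpr hDsq
      have hdiv2 : (D : ℤ) ∣ t' := by
        have : (D : ℤ) ∣ t' ^ 2 := ⟨q i i0, by rw [h3]; ring⟩
        exact (hDz.dvd_pow_iff_dvd two_ne_zero).mp this
      obtain ⟨y, hy⟩ := hdiv2
      refine ⟨y, ?_⟩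
      have h5 : 2 * (V i * V c) = 2 * ((s : ℝ) * D * y) := by
        rw [ht', ht'e, hy]; push_cast; ring
      linarith
    choose y hy using hkey
    refine ⟨D, hDsq, x, y, ?_⟩
    intro i j
    have h1 : ((V i - V j) * V c) ^ 2 = ((s : ℝ) * D * ((y i : ℝ) - y j)) ^ 2 := by
      rw [sub_mul, hy i, hy j]; ring
    have h2 : (V c) ^ 2 = ((s : ℝ) ^ 2 * D) := by
      rw [hM, hMn, ← hDs]; push_cast; ring
    have h2' : ((s : ℝ) ^ 2 * D) ≠ 0 := by rw [← h2]; positivity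
    have h3 : (V i - V j) ^ 2 = (D : ℝ) * ((y i : ℝ) - y j) ^ 2 := by
      have h4 : ((s : ℝ) ^ 2 * D) * (V i - V j) ^ 2
          = ((s : ℝ) ^ 2 * D) * ((D : ℝ) * ((y i : ℝ) - y j) ^ 2) := by
        rw [← h2]
        have : V c ^ 2 * (V i - V j) ^ 2 = ((V i - V j) * V c) ^ 2 := by ring
        rw [this, h1, h2]; ring
      exact mul_left_cancel₀ h2' h4
    have h5 := hUV i j
    rw [hUx i, hUx j, h3] at h5
    have h6 : ((2 * (d i0 i1 : ℤ) * (d i j : ℤ)) ^ 2 : ℝ)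
        = ((x i - x j) ^ 2 + (D : ℤ) * (y i - y j) ^ 2 : ℝ) := by
      push_cast; linarith
    exact_mod_cast h6

end H27.E8
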