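import Pool.Agent.H27.E8.Inert
import Pool.Agent.H27.E8.Coord

namespace H27.E8

open Finset

theorem superFactorial_ne_zero' (m : ℕ) : m.superFactorial ≠ 0 := by
  induction m with
  | zero => simp
  | succ m ih => rw [Nat.superFactorial_succ]; exact mul_ne_zero (Nat.factorial_ne_zero _) ih

theorem B_eq (n : ℕ) : B (n + 1) = padicValNat 2 n.superFactorial := by
  induction n with
  | zero => simp [B]
  | succ n ih =>
    rw [B, ih, Nat.superFactorial_succ,
      padicValNat.mul (Nat.factorial_ne_zero _) (superFactorial_ne_zero' n)]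
    ring

/-- Pairs above the diagonal. -/
theorem sum_pairs {n : ℕ} (f : Fin n → Fin n → ℕ) (hs : ∀ i j, f i j = f j i)
    (hd : ∀ i, f i i = 0) : ∑ i, ∑ j, f i j = 2 * ∑ i, ∑ j ∈ Ioi i, f i j := by
  have h := Finset.sum_sum_Ioi_add_eq_sum_sum_off_diag f
  have h1 : ∀ i, ∑ j ∈ ({i} : Finset (Fin n))ᶜ, f j i = ∑ j, f i j := by
    intro i
    have h2 := Finset.sum_add_sum_compl ({i} : Finset (Fin n)) (fun j => f i j)
    rw [Finset.sum_singleton, hd i, zero_add] at h2
    rw [← h2]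
    apply Finset.sum_congr rfl
    intro j _
    exact hs j i
  have h3 : ∀ i, ∑ j ∈ Ioi i, (f j i + f i j) = 2 * ∑ j ∈ Ioi i, f i j := by
    intro i
    rw [Finset.mul_sum]
    apply Finset.sum_congr rfl
    intro j _
    rw [hs j i]; ring
  rw [Finset.sum_congr rfl (fun i _ => h1 i), Finset.sum_congr rfl (fun i _ => h3 i),
    ← Finset.mul_sum] at h
  exact h.symm

theorem val_prod {n : ℕ} (d : Fin n → Fin n → ℕ) (hpos : ∀ i j, i ≠ j → 0 < d i j) :
    padicValNat 2 (∏ i, ∏ j ∈ Ioi i, d i j) = ∑ i, ∑ j ∈ Ioi i, padicValNat 2 (d i j) := by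
  have aux : ∀ {ι : Type} (S : Finset ι) (f : ι → ℕ), (∀ i ∈ S, f i ≠ 0) →
      padicValNat 2 (∏ i ∈ S, f i) = ∑ i ∈ S, padicValNat 2 (f i) := by
    intro ι S f h
    classical
    induction S using Finset.induction_on with
    | empty => simp
    | insert a S ha ih =>
      rw [Finset.prod_insert ha, Finset.sum_insert ha, padicValNat.mul (h a (mem_insert_self _ _))
        (Finset.prod_ne_zero_iff.mpr (fun i hi => h i (mem_insert_of_mem hi))),
        ih (fun i hi => h i (mem_insert_of_mem hi))]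
  have hne : ∀ i : Fin n, ∀ j ∈ Ioi i, d i j ≠ 0 := fun i j hj =>
    (hpos i j (ne_of_lt (mem_Ioi.mp hj))).ne'
  rw [aux Finset.univ _ (fun i _ => Finset.prod_ne_zero_iff.mpr (hne i))]
  apply Finset.sum_congr rfl
  intro i _
  exact aux _ _ (hne i)

/-- The local theorem at two. -/
theorem local_two (a : ℤ) (ha : a % 2 = 1) (D : ℕ) (hsq : Squarefree D)
    (n : ℕ) (hn : n ≠ 2) (x y : Fin (n + 1) → ℤ) (d : Fin (n + 1) → Fin (n + 1) → ℕ)
    (hpos : ∀ i j, i ≠ j → 0 < d i j) (hsymm : ∀ i j, d i j = d j i) (hdiag : ∀ i, d i i = 0)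
    (hd : ∀ i j, (2 * a * d i j) ^ 2 = (x i - x j) ^ 2 + D * (y i - y j) ^ 2)
    (k : ℕ) (hk : 2 ^ k ∣ n.superFactorial) :
    2 ^ k ∣ ∏ i, ∏ j ∈ Ioi i, d i j := by
  have h2i : Prime (2 : ℤ) := Int.prime_two
  have ha2 : ¬ ((2 : ℕ) : ℤ) ∣ a := by push_cast; omega
  have hD4 : D % 4 ≠ 0 := by
    intro h
    have h1 : 2 * 2 ∣ D := by omega
    exact absurd (Nat.isUnit_iff.mp (hsq 2 h1)) (by norm_num)
  have hcases : D % 4 = 2 ∨ D % 4 = 1 ∨ D % 8 = 7 ∨ D % 8 = 3 := by omega
  -- the case of a functional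
  have ram : ∀ α : ℤ,
      (∀ X Y z : ℤ, z ^ 2 = X ^ 2 + D * Y ^ 2 → (2 : ℤ) ∣ z → (2 : ℤ) ∣ X ∧ (2 : ℤ) ∣ Y) →
      (∀ X Y z : ℤ, z ^ 2 = X ^ 2 + D * Y ^ 2 → (2 : ℤ) ∣ X - α * Y → (2 : ℤ) ∣ z) →
      2 ^ k ∣ ∏ i, ∏ j ∈ Ioi i, d i j := by
    intro α h1 h2
    have hev : ∀ i, (2 : ℤ) ∣ x i - x 0 ∧ (2 : ℤ) ∣ y i - y 0 := fun i =>
      h1 _ _ _ (hd i 0) ⟨a * d i 0, by ring⟩
    choose x' hx' using fun i => (hev i).1
    choose y' hy' using fun i => (hev i).2
    have hd' : ∀ i j, (a * d i j) ^ 2 = (x' i - x' j) ^ 2 + (D : ℤ) * (y' i - y' j) ^ 2 := by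
      intro i j
      have e := hd i j
      have e1 : x i - x j = 2 * (x' i - x' j) := by
        have := hx' i; have := hx' j; linarith
      have e2 : y i - y j = 2 * (y' i - y' j) := by
        have := hy' i; have := hy' j; linarith
      rw [e1, e2] at e
      linarith
    exact functional_case 2 Nat.prime_two a (D : ℤ) α ha2
      (by intro X Y z hz hp; exact_mod_cast h1 X Y z hz (by exact_mod_cast hp))
      (by intro X Y z hz hp; exact_mod_cast h2 X Y z hz (by exact_mod_cast hp))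
      n x' y' d hpos hd' k hk
  rcases hcases with hD | hD | hD | hD
  · -- D = 2 mod 4
    obtain ⟨q, hq⟩ : ∃ q : ℤ, (D : ℤ) = 4 * q + 2 := ⟨(D : ℤ) / 4, by omega⟩
    apply ram 0
    · intro X Y z hz hz2
      obtain ⟨z', rfl⟩ := hz2
      rcases Int.even_or_odd' X with ⟨x, hx | hx⟩ <;> rcases Int.even_or_odd' Y with ⟨y, hy | hy⟩
      · exact ⟨⟨x, hx⟩, ⟨y, hy⟩⟩
      · exfalso; rw [hx, hy, hq] at hz; ring_nf at hz; omega
      · exfalso; rw [hx, hy, hq] at hz; ring_nf at hz; omega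
      · exfalso; rw [hx, hy, hq] at hz; ring_nf at hz; omega
    · intro X Y z hz hX
      rw [zero_mul, sub_zero] at hX
      have : (2 : ℤ) ∣ z ^ 2 := by
        rw [hz, hq]
        exact dvd_add (dvd_pow hX two_ne_zero) ⟨(2 * q + 1) * Y ^ 2, by ring⟩
      exact h2i.dvd_of_dvd_pow this
  · -- D = 1 mod 4
    obtain ⟨q, hq⟩ : ∃ q : ℤ, (D : ℤ) = 4 * q + 1 := ⟨(D : ℤ) / 4, by omega⟩
    apply ram 1
    · intro X Y z hz hz2
      obtain ⟨z', rfl⟩ := hz2
      rcases Int.even_or_odd' X with ⟨x, hx | hx⟩ <;> rcases Int.even_or_odd' Y with ⟨y, hy | hy⟩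
      · exact ⟨⟨x, hx⟩, ⟨y, hy⟩⟩
      · exfalso; rw [hx, hy, hq] at hz; ring_nf at hz; omega
      · exfalso; rw [hx, hy, hq] at hz; ring_nf at hz; omega
      · exfalso; rw [hx, hy, hq] at hz; ring_nf at hz; omega
    · intro X Y z hz hX
      rw [one_mul] at hX
      obtain ⟨t, ht⟩ := hX
      have hXe : X = Y + 2 * t := by linarith
      have : (2 : ℤ) ∣ z ^ 2 := by
        rw [hz, hq, hXe]
        exact ⟨Y ^ 2 + 2 * Y * t + 2 * t ^ 2 + 2 * q * Y ^ 2, by ring⟩
      exact h2i.dvd_of_dvd_pow this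
  · -- D = 7 mod 8
    have hD' : (D : ℤ) % 8 = 7 := by omega
    obtain ⟨s, hs, r, hr⟩ := sqrt_two_adic D hD' (2 * k + 2)
    obtain ⟨s', hs'⟩ : ∃ s', s = 2 * s' + 1 := ⟨s / 2, by omega⟩
    obtain ⟨q, hq⟩ : ∃ q : ℤ, (D : ℤ) = 8 * q + 7 := ⟨(D : ℤ) / 8, by omega⟩
    have hpar : ∀ i, ∃ t : ℤ, x i - x 0 = (y i - y 0) + 2 * t := by
      intro i
      have e := hd i 0
      rcases Int.even_or_odd' (x i - x 0) with ⟨X, hX | hX⟩ <;>
        rcases Int.even_or_odd' (y i - y 0) with ⟨Y, hY | hY⟩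
      · exact ⟨X - Y, by rw [hX, hY]; ring⟩
      · exfalso; rw [hX, hY, hq] at e; ring_nf at e; omega
      · exfalso; rw [hX, hY, hq] at e; ring_nf at e; omega
      · exact ⟨X - Y, by rw [hX, hY]; ring⟩
    choose t ht using hpar
    refine split_core 2 Nat.prime_two a ha2 n
      (fun i => (y i - y 0) * (s' + 1) + t i) (fun i => t i - (y i - y 0) * s') d k hk ?_
    intro i j
    have e := hd i j
    have e1 : x i - x j = (y i - y j) + 2 * (t i - t j) := by
      have := ht i; have := ht j; linarith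
    rw [e1] at e
    refine ⟨r * (y i - y j) ^ 2, ?_⟩
    have hr' : s ^ 2 + (D : ℤ) = 4 * ((2 : ℤ) ^ (2 * k) * r) := by
      rw [hr]; ring
    rw [hs'] at hr'
    push_cast
    have h4 : (4 : ℤ) * ((a * (d i j : ℤ)) ^ 2 - ((y j - y 0) * (s' + 1) + t j
        - ((y i - y 0) * (s' + 1) + t i)) * (t j - (y j - y 0) * s' - (t i - (y i - y 0) * s')))
        = 4 * ((2 : ℤ) ^ (2 * k) * (r * (y i - y j) ^ 2)) := by
      have e' : (4 : ℤ) * (a * (d i j : ℤ)) ^ 2
          = (y i - y j + 2 * (t i - t j)) ^ 2 + D * (y i - y j) ^ 2 := by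
        rw [← e]; ring
      linear_combination e' + (y i - y j) ^ 2 * hr'
    exact mul_left_cancel₀ (by norm_num) h4
  · -- D = 3 mod 8
    obtain ⟨q, hq⟩ : ∃ q : ℤ, (D : ℤ) = 8 * q + 3 := ⟨(D : ℤ) / 8, by omega⟩
    have hpar : ∀ i, ∃ t : ℤ, x i - x 0 = (y i - y 0) + 2 * t := by
      intro i
      have e := hd i 0
      rcases Int.even_or_odd' (x i - x 0) with ⟨X, hX | hX⟩ <;>
        rcases Int.even_or_odd' (y i - y 0) with ⟨Y, hY | hY⟩
      · exact ⟨X - Y, by rw [hX, hY]; ring⟩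
      · exfalso; rw [hX, hY, hq] at e; ring_nf at e; omega
      · exfalso; rw [hX, hY, hq] at e; ring_nf at e; omega
      · exact ⟨X - Y, by rw [hX, hY]; ring⟩
    choose t ht using hpar
    have hB := inert_two a (2 * q + 1) ha (by omega) n hn t (fun i => y i - y 0) d hpos hsymm
      hdiag (by
        intro i j
        have e := hd i j
        have e1 : x i - x j = (y i - y j) + 2 * (t i - t j) := by
          have := ht i; have := ht j; linarith
        rw [e1, hq] at e
        have e2 : y i - y 0 - (y j - y 0) = y i - y j := by ring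
        rw [e2]
        have h4 : (4 : ℤ) * (a * (d i j : ℤ)) ^ 2 = 4 * ((t i - t j) ^ 2 + (t i - t j) * (y i - y j)
            + (2 * q + 1) * (y i - y j) ^ 2) := by
          linear_combination e
        exact mul_left_cancel₀ (by norm_num) h4)
    rw [sum_pairs (fun i j => padicValNat 2 (d i j)) (fun i j => by rw [hsymm i j])
      (fun i => by simp [hdiag i]), ← val_prod d hpos, B_eq] at hB
    have h1 : k ≤ padicValNat 2 n.superFactorial :=
      (padicValNat_dvd_iff_le (superFactorial_ne_zero' n)).mp hk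
    have hne : (∏ i, ∏ j ∈ Ioi i, d i j) ≠ 0 :=
      Finset.prod_ne_zero_iff.mpr (fun i _ => Finset.prod_ne_zero_iff.mpr (fun j hj =>
        (hpos i j (ne_of_lt (mem_Ioi.mp hj))).ne'))
    exact (padicValNat_dvd_iff_le hne).mpr (by omega)

/-- Scaling away common factors. -/
theorem main_gen (p : ℕ) (hp : p.Prime) (n : ℕ) (k : ℕ) (hk : p ^ k ∣ n.superFactorial)
    (hloc : ∀ (D : ℕ), Squarefree D → ∀ (x y : Fin (n + 1) → ℤ)
      (d : Fin (n + 1) → Fin (n + 1) → ℕ) (a : ℕ), ¬ p ∣ a → (∀ i j, i ≠ j → 0 < d i j) →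
      (∀ i j, d i j = d j i) → (∀ i, d i i = 0) →
      (∀ i j, (2 * (a : ℤ) * d i j) ^ 2 = (x i - x j) ^ 2 + D * (y i - y j) ^ 2) →
      p ^ k ∣ ∏ i, ∏ j ∈ Ioi i, d i j) :
    ∀ S : ℕ, ∀ (X Y : Fin (n + 1) → ℝ) (d : Fin (n + 1) → Fin (n + 1) → ℕ),
      (∑ i, ∑ j, d i j) = S →
      (∀ i j, (X i - X j) ^ 2 + (Y i - Y j) ^ 2 = (d i j : ℝ) ^ 2) →
      (∀ i j, i ≠ j → 0 < d i j) → p ^ k ∣ ∏ i, ∏ j ∈ Ioi i, d i j := by
  intro S
  induction S using Nat.strong_induction_on with
  | _ S ih =>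
    intro X Y d hS hd hpos
    have hdiag : ∀ i, d i i = 0 := by
      intro i
      have h := hd i i
      have h0 : (d i i : ℝ) ^ 2 = 0 := by rw [← h]; ring
      have h1 : (d i i : ℝ) = 0 := pow_eq_zero_iff two_ne_zero |>.mp h0
      exact_mod_cast h1
    have hsymm : ∀ i j, d i j = d j i := by
      intro i j
      have h : (d i j : ℝ) ^ 2 = (d j i : ℝ) ^ 2 := by rw [← hd i j, ← hd j i]; ring
      have h1 : (d i j) ^ 2 = (d j i) ^ 2 := by exact_mod_cast h
      exact Nat.pow_left_injective two_ne_zero h1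
    rcases Nat.eq_zero_or_pos n with rfl | hn
    · have : p ^ k ∣ 1 := by simpa using hk
      exact this.trans (one_dvd _)
    · by_cases hall : ∀ i j, i ≠ j → p ∣ d i j
      · have hall' : ∀ i j, p ∣ d i j := by
          intro i j
          by_cases hij : i = j
          · subst hij; rw [hdiag i]; exact dvd_zero _
          · exact hall i j hij
        choose e he using hall'
        have hp0 : (p : ℝ) ≠ 0 := by exact_mod_cast hp.ne_zero
        have hpos' : ∀ i j, i ≠ j → 0 < e i j := by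
          intro i j hij
          have := hpos i j hij
          rw [he i j] at this
          exact Nat.pos_of_mul_pos_left this
        have hSe : (∑ i, ∑ j, d i j) = p * ∑ i, ∑ j, e i j := by
          rw [Finset.mul_sum]
          apply Finset.sum_congr rfl
          intro i _
          rw [Finset.mul_sum]
          apply Finset.sum_congr rfl
          intro j _
          exact he i j
        have hSpos : 0 < ∑ i, ∑ j, e i j := by
          have h01 : (0 : Fin (n + 1)) ≠ Fin.last n := by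
            intro h
            have := congrArg Fin.val h
            simp at this; omega
          apply Nat.pos_of_ne_zero
          intro h
          have h1 := (Finset.sum_eq_zero_iff.mp h) 0 (mem_univ _)
          have h2 := (Finset.sum_eq_zero_iff.mp h1) (Fin.last n) (mem_univ _)
          have := hpos' 0 (Fin.last n) h01
          omega
        have hlt : (∑ i, ∑ j, e i j) < S := by
          rw [← hS, hSe]
          have := hp.two_le
          nlinarith
        have hrec := ih _ hlt (fun i => X i / p) (fun i => Y i / p) e rfl (by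
          intro i j
          have h := hd i j
          rw [he i j] at h
          push_cast at h
          field_simp
          linarith) hpos'
        refine hrec.trans ?_
        apply Finset.prod_dvd_prod_of_dvd
        intro i _
        apply Finset.prod_dvd_prod_of_dvd
        intro j _
        exact ⟨p, by rw [he i j]; ring⟩
      · push Not at hall
        obtain ⟨i0, i1, h01, hnd⟩ := hall
        obtain ⟨D, hDsq, x, y, hxy⟩ := coords X Y d hd i0 i1
        exact hloc D hDsq x y d (d i0 i1) hnd hpos hsymm hdiag hxy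

theorem plane_form {n : ℕ} (P : Fin (n + 1) → EuclideanSpace ℝ (Fin 2))
    (d : Fin (n + 1) → Fin (n + 1) → ℕ) (hd : ∀ i j, dist (P i) (P j) = d i j) :
    ∀ i j, (P i 0 - P j 0) ^ 2 + (P i 1 - P j 1) ^ 2 = (d i j : ℝ) ^ 2 := by
  intro i j
  rw [← hd i j, EuclideanSpace.dist_eq, Real.sq_sqrt (by positivity), Fin.sum_univ_two,
    Real.dist_eq, Real.dist_eq, sq_abs, sq_abs]

/-- `1! 2! ⋯ n!` divides the product of the distances of `n + 1` points, `n ≠ 2`. -/
theorem superFactorial_dvd {n : ℕ} (hn : n ≠ 2) (P : Fin (n + 1) → EuclideanSpace ℝ (Fin 2))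
    (hP : Function.Injective P)
    (d : Fin (n + 1) → Fin (n + 1) → ℕ) (hd : ∀ i j, dist (P i) (P j) = d i j) :
    n.superFactorial ∣ ∏ i, ∏ j ∈ Ioi i, d i j := by
  have hpos : ∀ i j, i ≠ j → 0 < d i j := by
    intro i j hij
    have h1 : 0 < dist (P i) (P j) := dist_pos.mpr (fun h => hij (hP h))
    rw [hd i j] at h1
    exact_mod_cast h1
  rw [Nat.dvd_iff_prime_pow_dvd_dvd]
  intro p k hp hk
  have hpi : Prime (p : ℤ) := Nat.prime_iff_prime_int.mp hp
  apply main_gen p hp n k hk _ _ (fun i => P i 0) (fun i => P i 1) d rfl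
    (plane_form P d hd) hpos
  intro D hD x y d a ha hpos hsymm hdiag hxy
  by_cases hp2 : p = 2
  · subst hp2
    exact local_two (a : ℤ) (by omega) D hD n hn x y d hpos hsymm hdiag hxy k hk
  · refine local_dvd p hp hp2 (2 * (a : ℤ)) ?_ D hD n x y d hpos hxy k hk
    intro h
    rcases hpi.dvd_or_dvd h with h | h
    · have : p ∣ 2 := by exact_mod_cast h
      exact hp2 ((Nat.prime_dvd_prime_iff_eq hp Nat.prime_two).mp this)
    · exact ha (by exact_mod_cast h)

end H27.E8
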