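import Pool.Agent.H27.E8.Two

namespace H27.E8

open Finset

/-- Extraction of the reduced difference. -/
theorem extract (a c : ℤ) (ha : a % 2 = 1) (hc : c % 2 = 1) (X Y : ℤ) (d : ℕ) (hd : 0 < d)
    (h : (a * d) ^ 2 = X ^ 2 + X * Y + c * Y ^ 2) :
    ∃ A C : ℤ, X = 2 ^ (padicValNat 2 d) * A ∧ Y = 2 ^ (padicValNat 2 d) * C ∧
      (A ^ 2 + A * C + c * C ^ 2) % 8 = 1 := by
  obtain ⟨q, hq⟩ : 2 ^ (padicValNat 2 d) ∣ d := pow_padicValNat_dvd
  have hqodd : q % 2 = 1 := by
    by_contra hcon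
    have h2 : 2 ∣ q := by omega
    obtain ⟨r, hr⟩ := h2
    have h3 : 2 ^ (padicValNat 2 d + 1) ∣ d := by
      refine ⟨r, ?_⟩
      calc d = 2 ^ padicValNat 2 d * q := hq
        _ = 2 ^ (padicValNat 2 d + 1) * r := by rw [hr]; ring
    have := (padicValNat_dvd_iff_le hd.ne').mp h3
    omega
  generalize hm : padicValNat 2 d = m at hq ⊢
  have hqz : (d : ℤ) = 2 ^ m * q := by
    have := congrArg (fun t : ℕ => (t : ℤ)) hq
    push_cast at this; exact this
  have hdvd : (2 : ℤ) ^ m ∣ a * d := ⟨a * q, by rw [hqz]; ring⟩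
  obtain ⟨⟨A, hA⟩, ⟨C, hC⟩⟩ := norm_pow_dvd c hc m X Y (a * d) h hdvd
  refine ⟨A, C, hA, hC, ?_⟩
  have h1 : (2 : ℤ) ^ m * 2 ^ m * (a * q) ^ 2 = (2 : ℤ) ^ m * 2 ^ m * (A ^ 2 + A * C + c * C ^ 2) := by
    have e : (a * (d : ℤ)) ^ 2 = (2 : ℤ) ^ m * 2 ^ m * (a * q) ^ 2 := by
      rw [hqz]; ring
    rw [← e, h, hA, hC]; ring
  have h2 : (2 : ℤ) ^ m * 2 ^ m ≠ 0 := by positivity
  have h3 := mul_left_cancel₀ h2 h1
  rw [← h3]
  apply odd_sq_mod
  have hq' : (q : ℤ) % 2 = 1 := by exact_mod_cast hqodd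
  rw [Int.mul_emod, ha, hq']; norm_num

/-- The inert case at two: the tree lemma applies. -/
theorem inert_two (a c : ℤ) (ha : a % 2 = 1) (hc : c % 2 = 1)
    (n : ℕ) (hn : n ≠ 2) (X Y : Fin (n + 1) → ℤ) (d : Fin (n + 1) → Fin (n + 1) → ℕ)
    (hpos : ∀ i j, i ≠ j → 0 < d i j) (hsymm : ∀ i j, d i j = d j i) (hdiag : ∀ i, d i i = 0)
    (h : ∀ i j, (a * d i j) ^ 2 = (X i - X j) ^ 2 + (X i - X j) * (Y i - Y j)
      + c * (Y i - Y j) ^ 2) :
    2 * B (n + 1) ≤ ∑ i, ∑ j, padicValNat 2 (d i j) := by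
  set v : Fin (n + 1) → Fin (n + 1) → ℕ := fun i j => padicValNat 2 (d i j) with hv
  have hvs : ∀ i j, v i j = v j i := fun i j => by simp only [hv]; rw [hsymm i j]
  have hvd : ∀ i, v i i = 0 := fun i => by simp [hv, hdiag i]
  have ext : ∀ i j, i ≠ j → ∃ A C : ℤ, X i - X j = 2 ^ (v i j) * A ∧ Y i - Y j = 2 ^ (v i j) * C ∧
      (A ^ 2 + A * C + c * C ^ 2) % 8 = 1 := fun i j hij =>
    extract a c ha hc _ _ (d i j) (hpos i j hij) (h i j)
  have hge : ∀ i j, i ≠ j → ∀ m : ℕ, (2 : ℤ) ^ m ∣ X i - X j → (2 : ℤ) ^ m ∣ Y i - Y j →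
      m ≤ v i j := by
    intro i j hij m h1 h2
    obtain ⟨p, hp⟩ := h1
    obtain ⟨q, hq⟩ := h2
    have h3 : (2 : ℤ) ^ m ∣ a * d i j := by
      have : ((2 : ℤ) ^ m) ^ 2 ∣ (a * d i j) ^ 2 := by
        rw [h i j, hp, hq]
        exact ⟨p ^ 2 + p * q + c * q ^ 2, by ring⟩
      exact (Int.pow_dvd_pow_iff two_ne_zero).mp this
    have hcop : IsCoprime ((2 : ℤ) ^ m) a := by
      apply IsCoprime.pow_left
      have hp2 : Prime (2 : ℤ) := Int.prime_two
      exact (Prime.coprime_iff_not_dvd hp2).mpr (by omega)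
    have h4 := hcop.dvd_of_dvd_mul_left h3
    have h5 : 2 ^ m ∣ d i j := by exact_mod_cast h4
    exact (padicValNat_dvd_iff_le (hpos i j hij).ne').mp h5
  have hU : ∀ i j k, i ≠ j → j ≠ k → i ≠ k → min (v i j) (v j k) ≤ v i k := by
    intro i j k hij hjk hik
    obtain ⟨A, C, hA, hC, -⟩ := ext i j hij
    obtain ⟨A', C', hA', hC', -⟩ := ext j k hjk
    apply hge i k hik
    · have : X i - X k = (X i - X j) + (X j - X k) := by ring
      rw [this, hA, hA']
      exact dvd_add (dvd_mul_of_dvd_left (pow_dvd_pow _ (min_le_left _ _)) _)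
        (dvd_mul_of_dvd_left (pow_dvd_pow _ (min_le_right _ _)) _)
    · have : Y i - Y k = (Y i - Y j) + (Y j - Y k) := by ring
      rw [this, hC, hC']
      exact dvd_add (dvd_mul_of_dvd_left (pow_dvd_pow _ (min_le_left _ _)) _)
        (dvd_mul_of_dvd_left (pow_dvd_pow _ (min_le_right _ _)) _)
  -- reduced norm of the difference of two differences at the same level
  have cancel : ∀ (m : ℕ) (A A' B' : ℤ), (2 : ℤ) ^ m * A - 2 ^ m * A' = 2 ^ m * B' →
      A - A' = B' := by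
    intro m A A' B' hh
    have h2 : (2 : ℤ) ^ m ≠ 0 := by positivity
    apply mul_left_cancel₀ h2
    rw [mul_sub]; exact hh
  have main := tree v hvs hvd hU
    (by
      intro i j k l hij hik hil hjk hjl hkl e1 e2 e3 e4 e5
      obtain ⟨A1, C1, hA1, hC1, hN1⟩ := ext j i (Ne.symm hij)
      obtain ⟨A2, C2, hA2, hC2, hN2⟩ := ext k i (Ne.symm hik)
      obtain ⟨A3, C3, hA3, hC3, hN3⟩ := ext l i (Ne.symm hil)
      obtain ⟨A12, C12, hA12, hC12, hN12⟩ := ext j k hjk
      obtain ⟨A13, C13, hA13, hC13, hN13⟩ := ext j l hjl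
      obtain ⟨A23, C23, hA23, hC23, hN23⟩ := ext k l hkl
      rw [hvs j i] at hA1 hC1
      rw [hvs k i, ← e1] at hA2 hC2
      rw [hvs l i, ← e2] at hA3 hC3
      rw [← e3] at hA12 hC12
      rw [← e4] at hA13 hC13
      rw [← e5] at hA23 hC23
      have f12 := cancel _ A1 A2 A12 (by rw [← hA1, ← hA2, ← hA12]; ring)
      have g12 := cancel _ C1 C2 C12 (by rw [← hC1, ← hC2, ← hC12]; ring)
      have f13 := cancel _ A1 A3 A13 (by rw [← hA1, ← hA3, ← hA13]; ring)
      have g13 := cancel _ C1 C3 C13 (by rw [← hC1, ← hC3, ← hC13]; ring)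
      have f23 := cancel _ A2 A3 A23 (by rw [← hA2, ← hA3, ← hA23]; ring)
      have g23 := cancel _ C2 C3 C23 (by rw [← hC2, ← hC3, ← hC23]; ring)
      exact no_four c A1 C1 A2 C2 A3 C3 hN1 hN2 hN3 (by rw [f12, g12]; exact hN12)
        (by rw [f13, g13]; exact hN13) (by rw [f23, g23]; exact hN23))
    (by
      intro i j k l hij hik hil hjk hjl hkl e1 e2 hne
      by_contra hcon
      push Not at hcon
      obtain ⟨hc1, hc2⟩ := hcon
      obtain ⟨A1, C1, hA1, hC1, hN1⟩ := ext j i (Ne.symm hij)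
      obtain ⟨A2, C2, hA2, hC2, hN2⟩ := ext k i (Ne.symm hik)
      obtain ⟨A3, C3, hA3, hC3, hN3⟩ := ext l i (Ne.symm hil)
      obtain ⟨A12, C12, hA12, hC12, hN12⟩ := ext j k hjk
      rw [hvs j i] at hA1 hC1
      rw [hvs k i, ← e1] at hA2 hC2
      rw [hvs l i] at hA3 hC3
      rw [← e2] at hA12 hC12
      have f12 := cancel _ A1 A2 A12 (by rw [← hA1, ← hA2, ← hA12]; ring)
      have g12 := cancel _ C1 C2 C12 (by rw [← hC1, ← hC2, ← hC12]; ring)
      have hN12' : ((A1 - A2) ^ 2 + (A1 - A2) * (C1 - C2) + c * (C1 - C2) ^ 2) % 8 = 1 := by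
        rw [f12, g12]; exact hN12
      rcases lt_or_gt_of_ne hne with hlt | hgt
      · -- v i l < v i j
        obtain ⟨e, he⟩ : ∃ e, v i j = v i l + e := ⟨v i j - v i l, by omega⟩
        have he12 : e = 1 ∨ e = 2 := by omega
        -- v l j = v i l , v l k = v i l
        have hlj : v l j = v i l := by
          have h1 := hU l i j (Ne.symm hil) hij (Ne.symm hjl)
          have h2 := hU i j l hij hjl hil
          rw [hvs l i] at h1
          rw [hvs j l] at h2
          rcases min_le_iff.mp h1 with h | h <;> rcases min_le_iff.mp h2 with h' | h' <;> omega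
        have hlk : v l k = v i l := by
          have h1 := hU l i k (Ne.symm hil) hik (Ne.symm hkl)
          have h2 := hU i k l hik hkl hil
          rw [hvs l i] at h1
          rw [hvs k l] at h2
          rcases min_le_iff.mp h1 with h | h <;> rcases min_le_iff.mp h2 with h' | h' <;> omega
        obtain ⟨A4, C4, hA4, hC4, hN4⟩ := ext l j (Ne.symm hjl)
        obtain ⟨A5, C5, hA5, hC5, hN5⟩ := ext l k (Ne.symm hkl)
        rw [hlj] at hA4 hC4
        rw [hlk] at hA5 hC5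
        rw [he, pow_add] at hA1 hC1 hA2 hC2
        have f1 : A3 - 2 ^ e * A1 = A4 := cancel (v i l) _ _ _ (by
          rw [← hA3, ← hA4, ← mul_assoc, ← hA1]; ring)
        have g1 : C3 - 2 ^ e * C1 = C4 := cancel (v i l) _ _ _ (by
          rw [← hC3, ← hC4, ← mul_assoc, ← hC1]; ring)
        have f2 : A3 - 2 ^ e * A2 = A5 := cancel (v i l) _ _ _ (by
          rw [← hA3, ← hA5, ← mul_assoc, ← hA2]; ring)
        have g2 : C3 - 2 ^ e * C2 = C5 := cancel (v i l) _ _ _ (by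
          rw [← hC3, ← hC5, ← mul_assoc, ← hC2]; ring)
        have k1 := lemmaK c A3 C3 A1 C1 e he12 hN3 (by rw [f1, g1]; exact hN4)
        have k2 := lemmaK c A3 C3 A2 C2 e he12 hN3 (by rw [f2, g2]; exact hN5)
        exact parallel c A1 C1 A2 C2 A3 C3 hc hN1 hN2 hN3 hN12'
          (by rw [show A1 * C3 + C1 * A3 = A3 * C1 + C3 * A1 by ring]; exact k1)
          (by rw [show A2 * C3 + C2 * A3 = A3 * C2 + C3 * A2 by ring]; exact k2)
      · -- v i j < v i l
        obtain ⟨e, he⟩ : ∃ e, v i l = v i j + e := ⟨v i l - v i j, by omega⟩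
        have he12 : e = 1 ∨ e = 2 := by omega
        have hjl' : v j l = v i j := by
          have h1 := hU j i l (Ne.symm hij) hil hjl
          have h2 := hU i l j hil (Ne.symm hjl) hij
          rw [hvs j i] at h1
          rw [hvs l j] at h2
          rcases min_le_iff.mp h1 with h | h <;> rcases min_le_iff.mp h2 with h' | h' <;> omega
        have hkl' : v k l = v i j := by
          have h1 := hU k i l (Ne.symm hik) hil hkl
          have h2 := hU i l k hil (Ne.symm hkl) hik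
          rw [hvs k i] at h1
          rw [hvs l k] at h2
          rcases min_le_iff.mp h1 with h | h <;> rcases min_le_iff.mp h2 with h' | h' <;> omega
        obtain ⟨A4, C4, hA4, hC4, hN4⟩ := ext j l hjl
        obtain ⟨A5, C5, hA5, hC5, hN5⟩ := ext k l hkl
        rw [hjl'] at hA4 hC4
        rw [hkl'] at hA5 hC5
        rw [he, pow_add] at hA3 hC3
        have f1 : A1 - 2 ^ e * A3 = A4 := cancel (v i j) _ _ _ (by
          rw [← hA1, ← hA4, ← mul_assoc, ← hA3]; ring)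
        have g1 : C1 - 2 ^ e * C3 = C4 := cancel (v i j) _ _ _ (by
          rw [← hC1, ← hC4, ← mul_assoc, ← hC3]; ring)
        have f2 : A2 - 2 ^ e * A3 = A5 := cancel (v i j) _ _ _ (by
          rw [← hA2, ← hA5, ← mul_assoc, ← hA3]; ring)
        have g2 : C2 - 2 ^ e * C3 = C5 := cancel (v i j) _ _ _ (by
          rw [← hC2, ← hC5, ← mul_assoc, ← hC3]; ring)
        have k1 := lemmaK c A1 C1 A3 C3 e he12 hN1 (by rw [f1, g1]; exact hN4)
        have k2 := lemmaK c A2 C2 A3 C3 e he12 hN2 (by rw [f2, g2]; exact hN5)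
        exact parallel c A1 C1 A2 C2 A3 C3 hc hN1 hN2 hN3 hN12' k1 k2)
    (n + 1) (by omega) Finset.univ (by simp) 0 (by intro i _ j _ _; exact Nat.zero_le _)
  simpa [tot] using main

end H27.E8
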