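import Pool.Agent.H27.E8.Arith

namespace H27.E8

open Finset

/-- Product form of the functional case. -/
theorem functional_case (p : ℕ) (hp : p.Prime) (c D α : ℤ) (hc : ¬ (p : ℤ) ∣ c)
    (h1 : ∀ X Y z : ℤ, z ^ 2 = X ^ 2 + D * Y ^ 2 → (p : ℤ) ∣ z → (p : ℤ) ∣ X ∧ (p : ℤ) ∣ Y)
    (h2 : ∀ X Y z : ℤ, z ^ 2 = X ^ 2 + D * Y ^ 2 → (p : ℤ) ∣ X - α * Y → (p : ℤ) ∣ z)
    (n : ℕ) (x y : Fin (n + 1) → ℤ) (d : Fin (n + 1) → Fin (n + 1) → ℕ)
    (hpos : ∀ i j, i ≠ j → 0 < d i j)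
    (hd : ∀ i j, (c * d i j) ^ 2 = (x i - x j) ^ 2 + D * (y i - y j) ^ 2)
    (k : ℕ) (hk : p ^ k ∣ n.superFactorial) :
    p ^ k ∣ ∏ i, ∏ j ∈ Ioi i, d i j := by
  have hpi : Prime (p : ℤ) := Nat.prime_iff_prime_int.mp hp
  have hm : ∀ i j : Fin (n + 1), ∃ m : ℤ, ¬ (p : ℤ) ∣ m ∧
      (i ≠ j → ((x j - α * y j) - (x i - α * y i)) ∣ m * d i j) := by
    intro i j
    by_cases hij : i = j
    · refine ⟨1, ?_, fun h => absurd hij h⟩
      intro h
      exact hpi.not_isUnit (isUnit_of_dvd_one h)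
    · obtain ⟨m, hm, hdiv⟩ := descent p hp c D α hc h1 h2 (d i j) (hpos i j hij)
        (x j - x i) (y j - y i) (by rw [hd i j]; ring)
      refine ⟨m, hm, fun _ => ?_⟩
      have : (x j - α * y j) - (x i - α * y i) = (x j - x i) - α * (y j - y i) := by ring
      rw [this]; exact hdiv
  choose m hm1 hm2 using hm
  have hV := Matrix.superFactorial_dvd_vandermonde_det (fun i => x i - α * y i)
  rw [Matrix.det_vandermonde] at hV
  have hP : (∏ i : Fin (n + 1), ∏ j ∈ Ioi i, ((x j - α * y j) - (x i - α * y i)))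
      ∣ ∏ i : Fin (n + 1), ∏ j ∈ Ioi i, (m i j * (d i j : ℤ)) := by
    apply Finset.prod_dvd_prod_of_dvd
    intro i _
    apply Finset.prod_dvd_prod_of_dvd
    intro j hj
    exact hm2 i j (ne_of_lt (mem_Ioi.mp hj))
  have hQ : ((p ^ k : ℕ) : ℤ) ∣ (∏ i : Fin (n + 1), ∏ j ∈ Ioi i, m i j)
      * ∏ i : Fin (n + 1), ∏ j ∈ Ioi i, (d i j : ℤ) := by
    have h3 : ((p ^ k : ℕ) : ℤ) ∣ (n.superFactorial : ℤ) := by exact_mod_cast hk
    have h4 := (h3.trans hV).trans hP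
    have h5 : (∏ i : Fin (n + 1), ∏ j ∈ Ioi i, (m i j * (d i j : ℤ)))
        = (∏ i : Fin (n + 1), ∏ j ∈ Ioi i, m i j)
      * ∏ i : Fin (n + 1), ∏ j ∈ Ioi i, (d i j : ℤ) := by
      rw [← Finset.prod_mul_distrib]
      apply Finset.prod_congr rfl
      intro i _
      rw [← Finset.prod_mul_distrib]
    rw [h5] at h4
    exact h4
  have hM : ¬ (p : ℤ) ∣ ∏ i : Fin (n + 1), ∏ j ∈ Ioi i, m i j := by
    intro h
    obtain ⟨i, _, hi⟩ := (Prime.dvd_finsetProd_iff hpi _).mp h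
    obtain ⟨j, _, hj⟩ := (Prime.dvd_finsetProd_iff hpi _).mp hi
    exact hm1 i j hj
  have hcop : IsCoprime (((p ^ k : ℕ) : ℤ)) (∏ i : Fin (n + 1), ∏ j ∈ Ioi i, m i j) := by
    push_cast
    exact IsCoprime.pow_left ((Prime.coprime_iff_not_dvd hpi).mpr hM)
  have hfin := hcop.dvd_of_dvd_mul_left hQ
  have hcast : (∏ i : Fin (n + 1), ∏ j ∈ Ioi i, (d i j : ℤ))
      = ((∏ i : Fin (n + 1), ∏ j ∈ Ioi i, d i j : ℕ) : ℤ) := by push_cast; rfl
  rw [hcast] at hfin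
  exact_mod_cast hfin

/-- Split case. -/
theorem split_case (p : ℕ) (hp : p.Prime) (hp2 : p ≠ 2) (c D : ℤ) (hc : ¬ (p : ℤ) ∣ c)
    (hD : ¬ (p : ℤ) ∣ D) (s0 : ℤ) (h0 : (p : ℤ) ∣ s0 ^ 2 + D)
    (n : ℕ) (x y : Fin (n + 1) → ℤ) (d : Fin (n + 1) → Fin (n + 1) → ℕ)
    (hd : ∀ i j, (c * d i j) ^ 2 = (x i - x j) ^ 2 + D * (y i - y j) ^ 2)
    (k : ℕ) (hk : p ^ k ∣ n.superFactorial) :
    p ^ k ∣ ∏ i, ∏ j ∈ Ioi i, d i j := by
  have hpi : Prime (p : ℤ) := Nat.prime_iff_prime_int.mp hp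
  obtain ⟨s, hs⟩ := lift_sqrt p hp hp2 D hD s0 h0 (2 * k)
  have hV1 := Matrix.superFactorial_dvd_vandermonde_det (fun i => x i + s * y i)
  have hV2 := Matrix.superFactorial_dvd_vandermonde_det (fun i => x i - s * y i)
  rw [Matrix.det_vandermonde] at hV1 hV2
  have h3 : ((p : ℤ)) ^ k ∣ (n.superFactorial : ℤ) := by exact_mod_cast hk
  have h12 : (p : ℤ) ^ (2 * k) ∣
      (∏ i : Fin (n + 1), ∏ j ∈ Ioi i, ((x j + s * y j) - (x i + s * y i))) *
      (∏ i : Fin (n + 1), ∏ j ∈ Ioi i, ((x j - s * y j) - (x i - s * y i))) := by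
    rw [two_mul, pow_add]
    exact mul_dvd_mul (h3.trans hV1) (h3.trans hV2)
  have hprod : (∏ i : Fin (n + 1), ∏ j ∈ Ioi i, ((x j + s * y j) - (x i + s * y i))) *
      (∏ i : Fin (n + 1), ∏ j ∈ Ioi i, ((x j - s * y j) - (x i - s * y i)))
      = ∏ i : Fin (n + 1), ∏ j ∈ Ioi i, (((x j + s * y j) - (x i + s * y i)) *
        ((x j - s * y j) - (x i - s * y i))) := by
    rw [← Finset.prod_mul_distrib]
    apply Finset.prod_congr rfl
    intro i _
    rw [← Finset.prod_mul_distrib]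
  rw [hprod] at h12
  have hmod : (∏ i : Fin (n + 1), ∏ j ∈ Ioi i, (((x j + s * y j) - (x i + s * y i)) *
        ((x j - s * y j) - (x i - s * y i))))
      ≡ ∏ i : Fin (n + 1), ∏ j ∈ Ioi i, (c * (d i j : ℤ)) ^ 2 [ZMOD ((p : ℤ) ^ (2 * k))] := by
    have aux : ∀ {ι : Type} (S : Finset ι) (f g : ι → ℤ) (M : ℤ),
        (∀ i ∈ S, f i ≡ g i [ZMOD M]) → ∏ i ∈ S, f i ≡ ∏ i ∈ S, g i [ZMOD M] := by
      intro ι S f g M h
      classical
      induction S using Finset.induction_on with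
      | empty => simp [Int.ModEq.refl]
      | insert a S ha ih =>
        rw [Finset.prod_insert ha, Finset.prod_insert ha]
        exact Int.ModEq.mul (h a (mem_insert_self _ _))
          (ih (fun i hi => h i (mem_insert_of_mem hi)))
    apply aux
    intro i _
    apply aux
    intro j _
    apply Int.ModEq.symm
    rw [Int.modEq_iff_dvd]
    rw [hd i j]
    have : ((x j + s * y j) - (x i + s * y i)) * ((x j - s * y j) - (x i - s * y i))
        - ((x i - x j) ^ 2 + D * (y i - y j) ^ 2) = (s ^ 2 + D) * (-(y i - y j) ^ 2) := by ring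
    rw [this]
    exact dvd_mul_of_dvd_left hs _
  have h4 : (p : ℤ) ^ (2 * k) ∣ ∏ i : Fin (n + 1), ∏ j ∈ Ioi i, (c * (d i j : ℤ)) ^ 2 := by
    have := (Int.ModEq.dvd_iff hmod).mp h12
    exact this
  have h5 : (∏ i : Fin (n + 1), ∏ j ∈ Ioi i, (c * (d i j : ℤ)) ^ 2)
      = ((∏ i : Fin (n + 1), ∏ j ∈ Ioi i, c) * (∏ i : Fin (n + 1), ∏ j ∈ Ioi i, (d i j : ℤ))) ^ 2 := by
    rw [← Finset.prod_mul_distrib, ← Finset.prod_pow]
    apply Finset.prod_congr rfl
    intro i _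
    rw [← Finset.prod_mul_distrib, ← Finset.prod_pow]
  rw [h5, mul_comm 2 k, pow_mul] at h4
  have h6 : (p : ℤ) ^ k ∣ (∏ i : Fin (n + 1), ∏ j ∈ Ioi i, c)
      * (∏ i : Fin (n + 1), ∏ j ∈ Ioi i, (d i j : ℤ)) :=
    (Int.pow_dvd_pow_iff two_ne_zero).mp h4
  have hM : ¬ (p : ℤ) ∣ ∏ i : Fin (n + 1), ∏ j ∈ Ioi i, c := by
    intro h
    obtain ⟨i, _, hi⟩ := (Prime.dvd_finsetProd_iff hpi _).mp h
    obtain ⟨j, _, hj⟩ := (Prime.dvd_finsetProd_iff hpi _).mp hi
    exact hc hj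
  have hcop : IsCoprime ((p : ℤ) ^ k) (∏ i : Fin (n + 1), ∏ j ∈ Ioi i, c) :=
    IsCoprime.pow_left ((Prime.coprime_iff_not_dvd hpi).mpr hM)
  have hfin := hcop.dvd_of_dvd_mul_left h6
  have hcast : (∏ i : Fin (n + 1), ∏ j ∈ Ioi i, (d i j : ℤ))
      = ((∏ i : Fin (n + 1), ∏ j ∈ Ioi i, d i j : ℕ) : ℤ) := by push_cast; rfl
  rw [hcast] at hfin
  exact_mod_cast hfin

/-- The local theorem in integral coordinates. -/
theorem local_dvd (p : ℕ) (hp : p.Prime) (hp2 : p ≠ 2) (c : ℤ) (hc : ¬ (p : ℤ) ∣ c)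
    (D : ℕ) (hsq : Squarefree D)
    (n : ℕ) (x y : Fin (n + 1) → ℤ) (d : Fin (n + 1) → Fin (n + 1) → ℕ)
    (hpos : ∀ i j, i ≠ j → 0 < d i j)
    (hd : ∀ i j, (c * d i j) ^ 2 = (x i - x j) ^ 2 + D * (y i - y j) ^ 2)
    (k : ℕ) (hk : p ^ k ∣ n.superFactorial) :
    p ^ k ∣ ∏ i, ∏ j ∈ Ioi i, d i j := by
  have hpi : Prime (p : ℤ) := Nat.prime_iff_prime_int.mp hp
  have hp0 : (p : ℤ) ≠ 0 := by exact_mod_cast hp.ne_zero
  have : Fact p.Prime := ⟨hp⟩
  by_cases hD : (p : ℤ) ∣ (D : ℤ)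
  · -- ramified
    apply functional_case p hp c D 0 hc _ _ n x y d hpos hd k hk
    · intro X Y z hz hpz
      have hX : (p : ℤ) ∣ X := by
        have h : (p : ℤ) ∣ X ^ 2 := by
          have h1 : (p : ℤ) ∣ X ^ 2 + D * Y ^ 2 := by rw [← hz]; exact dvd_pow hpz two_ne_zero
          exact (dvd_add_left (dvd_mul_of_dvd_left hD _)).mp h1
        exact hpi.dvd_of_dvd_pow h
      refine ⟨hX, ?_⟩
      obtain ⟨z', rfl⟩ := hpz
      obtain ⟨X', rfl⟩ := hX
      have hDn : p ∣ D := by exact_mod_cast hD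
      obtain ⟨D', rfl⟩ := hDn
      have hD' : ¬ (p : ℤ) ∣ (D' : ℤ) := by
        intro h
        have h' : p ∣ D' := by exact_mod_cast h
        obtain ⟨D'', rfl⟩ := h'
        have : p * p ∣ p * (p * D'') := ⟨D'', by ring⟩
        exact hp.one_lt.ne' (Nat.isUnit_iff.mp (hsq p this))
      have h2 : (p : ℤ) * (z' ^ 2 - X' ^ 2) = D' * Y ^ 2 := by
        have : (p : ℤ) * ((p : ℤ) * (z' ^ 2 - X' ^ 2)) = (p : ℤ) * (D' * Y ^ 2) := by
          push_cast at hz; linear_combination hz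
        exact mul_left_cancel₀ hp0 this
      have h3 : (p : ℤ) ∣ D' * Y ^ 2 := ⟨_, h2.symm⟩
      rcases hpi.dvd_or_dvd h3 with h | h
      · exact absurd h hD'
      · exact hpi.dvd_of_dvd_pow h
    · intro X Y z hz hX
      rw [zero_mul, sub_zero] at hX
      have : (p : ℤ) ∣ z ^ 2 := by
        rw [hz]; exact dvd_add (dvd_pow hX two_ne_zero) (dvd_mul_of_dvd_left hD _)
      exact hpi.dvd_of_dvd_pow this
  · by_cases hs : ∃ s0 : ℤ, (p : ℤ) ∣ s0 ^ 2 + D
    · obtain ⟨s0, hs0⟩ := hs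
      exact split_case p hp hp2 c D hc hD s0 hs0 n x y d hd k hk
    · push Not at hs
      have hDz : ((D : ℕ) : ZMod p) ≠ 0 := by
        intro h
        apply hD
        have := (ZMod.natCast_eq_zero_iff D p).mp h
        exact_mod_cast this
      obtain ⟨a, ha⟩ := exists_nonsq p hp2 (D : ZMod p) hDz
      have hcast : ∀ t : ℤ, (p : ℤ) ∣ t ↔ ((t : ℤ) : ZMod p) = 0 := fun t =>
        (ZMod.intCast_zmod_eq_zero_iff_dvd t p).symm
      apply functional_case p hp c D (a.val : ℤ) hc _ _ n x y d hpos hd k hk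
      · intro X Y z hz hpz
        have hY : (p : ℤ) ∣ Y := by
          by_contra hY
          rw [hcast] at hY
          have hz' : ((z : ℤ) : ZMod p) = 0 := (hcast z).mp hpz
          have he : ((X : ℤ) : ZMod p) ^ 2 + (D : ZMod p) * ((Y : ℤ) : ZMod p) ^ 2 = 0 := by
            have := congrArg (fun t : ℤ => (t : ZMod p)) hz
            push_cast at this
            rw [← this, hz']; ring
          apply hs (((X : ZMod p) / (Y : ZMod p)).val : ℤ)
          rw [hcast]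
          push_cast
          rw [ZMod.natCast_zmod_val]
          field_simp
          linear_combination he
        refine ⟨?_, hY⟩
        have h : (p : ℤ) ∣ X ^ 2 := by
          have h1 : (p : ℤ) ∣ X ^ 2 + D * Y ^ 2 := by rw [← hz]; exact dvd_pow hpz two_ne_zero
          exact (dvd_add_left (dvd_mul_of_dvd_right (dvd_pow hY two_ne_zero) _)).mp h1
        exact hpi.dvd_of_dvd_pow h
      · intro X Y z hz hX
        have hX' : ((X : ℤ) : ZMod p) = a * ((Y : ℤ) : ZMod p) := by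
          have := (hcast _).mp hX
          push_cast at this
          rw [ZMod.natCast_zmod_val] at this
          linear_combination this
        have he : ((z : ℤ) : ZMod p) ^ 2 = (a ^ 2 + (D : ZMod p)) * ((Y : ℤ) : ZMod p) ^ 2 := by
          have := congrArg (fun t : ℤ => (t : ZMod p)) hz
          push_cast at this
          rw [this, hX']; ring
        have hY : ((Y : ℤ) : ZMod p) = 0 := by
          by_contra hY
          apply ha
          refine ⟨(z : ZMod p) / (Y : ZMod p), ?_⟩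
          field_simp
          linear_combination -he
        rw [hcast]
        rw [hY] at he
        have : ((z : ℤ) : ZMod p) ^ 2 = 0 := by rw [he]; ring
        exact pow_eq_zero_iff two_ne_zero |>.mp this

end H27.E8
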