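import Mathlib

namespace H27.E8

open Finset

/-- `B n = v_2 (0! 1! ⋯ (n-1)!)`. -/
noncomputable def B : ℕ → ℕ
  | 0 => 0
  | n + 1 => B n + padicValNat 2 n.factorial

/-- `hh m = m + v_2 (m!)`. -/
noncomputable def hh (m : ℕ) : ℕ := m + padicValNat 2 m.factorial

theorem hh_mono {a b : ℕ} (h : a ≤ b) : hh a ≤ hh b := by
  unfold hh
  have h1 : padicValNat 2 a.factorial ≤ padicValNat 2 b.factorial := by
    apply (padicValNat_dvd_iff_le (Nat.factorial_ne_zero b)).mp
    exact (pow_padicValNat_dvd).trans (Nat.factorial_dvd_factorial h)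
  omega

theorem v2_fact_even (m : ℕ) : padicValNat 2 (2 * m).factorial = hh m := by
  unfold hh
  rw [padicValNat_factorial_mul]
  ring

theorem v2_fact_odd (m : ℕ) : padicValNat 2 (2 * m + 1).factorial = hh m := by
  rw [Nat.factorial_succ, padicValNat.mul (by omega) (Nat.factorial_ne_zero _), v2_fact_even]
  have : padicValNat 2 (2 * m + 1) = 0 := by
    apply padicValNat.eq_zero_of_not_dvd
    omega
  omega

/-- `H s = C(s,2) + B s`. -/
noncomputable def H (s : ℕ) : ℕ := s.choose 2 + B s

theorem H_succ (s : ℕ) : H (s + 1) = H s + hh s := by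
  unfold H hh
  rw [B, Nat.choose_succ_succ' s 1, Nat.choose_one_right]
  ring

theorem B_even (m : ℕ) : B (2 * m) = 2 * H m := by
  induction m with
  | zero => simp [B, H]
  | succ m ih =>
    have : B (2 * (m + 1)) = B (2 * m) + padicValNat 2 (2 * m).factorial
        + padicValNat 2 (2 * m + 1).factorial := by
      rw [show 2 * (m + 1) = (2 * m + 1) + 1 by ring, B, B]
    rw [this, v2_fact_even, v2_fact_odd, ih, H_succ]; ring

theorem B_odd (m : ℕ) : B (2 * m + 1) = H m + H (m + 1) := by
  rw [B, B_even, v2_fact_even, H_succ]; ring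

theorem B_add_le_aux : ∀ t a b : ℕ, a = b + t → B (a + b) ≤ H a + H b := by
  intro t
  induction t using Nat.strong_induction_on with
  | _ t ih =>
    intro a b hab
    rcases t with _ | _ | t
    · have hab' : a = b := by simpa using hab
      rw [hab', show b + b = 2 * b by ring, B_even]; omega
    · have hab' : a = b + 1 := by simpa using hab
      rw [hab', show b + 1 + b = 2 * b + 1 by ring, B_odd]; omega
    · subst hab
      have h1 := ih t (by omega) (b + 1 + t) (b + 1) rfl
      have h2 : b + (t + 1 + 1) + b = (b + 1 + t) + (b + 1) := by ring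
      rw [h2]
      have h3 : H (b + (t + 1 + 1)) = H (b + 1 + t) + hh (b + 1 + t) := by
        rw [← H_succ]; congr 1; ring
      have h4 : H (b + 1) = H b + hh b := H_succ b
      have h5 : hh b ≤ hh (b + 1 + t) := hh_mono (by omega)
      omega

theorem B_add_le (a b : ℕ) : B (a + b) ≤ H a + H b := by
  rcases le_total b a with h | h
  · exact B_add_le_aux (a - b) a b (by omega)
  · have := B_add_le_aux (b - a) b a (by omega)
    rw [add_comm a b]; omega

theorem B_two : B 2 = 0 := by
  have := B_even 1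
  simp [H, B] at this ⊢

theorem B_three : B 3 = 1 := by
  have h := B_odd 1
  have h2 : H 1 = 0 := by simp [H, B]
  have h3 : H 2 = 1 := by simp [H, B_two]
  rw [h2, h3] at h
  simpa using h

/-- The three-way inequality. -/
theorem B_three_way (a b c : ℕ) (hab : b ≤ a) (hbc : c ≤ b) (hc : 1 ≤ c) (h4 : 4 ≤ a + b + c) :
    2 * B (a + b + c) + (if a = 3 then 2 else 0) + (if b = 3 then 2 else 0)
      + (if c = 3 then 2 else 0)
    ≤ 3 * (a * (a - 1)) + 3 * (b * (b - 1)) + 3 * (c * (c - 1))
      + 2 * B a + 2 * B b + 2 * B c := by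
  have h1 := B_add_le a (b + c)
  have h2 := B_add_le b c
  have hH : ∀ s, 2 * H s = s * (s - 1) + 2 * B s := by
    intro s
    unfold H
    have : 2 * s.choose 2 = s * (s - 1) := by
      rw [Nat.choose_two_right]
      exact Nat.mul_div_cancel' (Nat.even_mul_pred_self s).two_dvd
    rw [mul_add, this]
  have e1 := hH a
  have e2 := hH b
  have e3 := hH c
  have e4 := hH (b + c)
  rw [show a + b + c = a + (b + c) by ring]
  have key : (b + c) * (b + c - 1) + (if a = 3 then 2 else 0) + (if b = 3 then 2 else 0)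
      + (if c = 3 then 2 else 0) ≤ 2 * (a * (a - 1)) + 2 * (b * (b - 1)) + 2 * (c * (c - 1)) := by
    obtain ⟨a', rfl⟩ : ∃ a', a = a' + 1 := ⟨a - 1, by omega⟩
    obtain ⟨b', rfl⟩ : ∃ b', b = b' + 1 := ⟨b - 1, by omega⟩
    obtain ⟨c', rfl⟩ : ∃ c', c = c' + 1 := ⟨c - 1, by omega⟩
    have s1 : b' + 1 + (c' + 1) - 1 = b' + c' + 1 := by omega
    rw [s1]
    simp only [Nat.add_sub_cancel]
    have ha' : b' ≤ a' := by omega
    have hb' : c' ≤ b' := by omega
    have ha1 : 1 ≤ a' := by omega
    by_cases hbig : 3 ≤ a'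
    · have hi : (if a' + 1 = 3 then 2 else 0) = 0 := by rw [if_neg (by omega)]
      have hb2 : (if b' + 1 = 3 then 2 else 0) ≤ 2 := by split_ifs <;> omega
      have hc2 : (if c' + 1 = 3 then 2 else 0) ≤ 2 := by split_ifs <;> omega
      rw [hi]
      obtain ⟨e, rfl⟩ : ∃ e, a' = b' + e := ⟨a' - b', by omega⟩
      obtain ⟨f, rfl⟩ : ∃ f, b' = c' + f := ⟨b' - c', by omega⟩
      nlinarith [Nat.zero_le e, Nat.zero_le f, Nat.zero_le c', mul_nonneg (Nat.zero_le e) (Nat.zero_le f)]
    · have ha3 : a' ≤ 2 := by omega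
      interval_cases a' <;> interval_cases b' <;> interval_cases c' <;> simp_all
  omega

end H27.E8
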