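import Pool.Agent.H27.E8.Num

namespace H27.E8

open Finset

theorem B_three_way' (a b c : ℕ) (ha : 1 ≤ a) (hb : 1 ≤ b) (hc : 1 ≤ c) (h4 : 4 ≤ a + b + c) :
    2 * B (a + b + c) + (if a = 3 then 2 else 0) + (if b = 3 then 2 else 0)
      + (if c = 3 then 2 else 0)
    ≤ 3 * (a * (a - 1)) + 3 * (b * (b - 1)) + 3 * (c * (c - 1))
      + 2 * B a + 2 * B b + 2 * B c := by
  rcases le_total b a with h1 | h1 <;> rcases le_total c b with h2 | h2 <;>
    rcases le_total c a with h3 | h3
  · exact B_three_way a b c h1 h2 hc h4
  · exact B_three_way a b c h1 h2 hc h4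
  · have := B_three_way a c b h3 h2 hb (by omega)
    rw [show a + c + b = a + b + c by ring] at this; omega
  · have := B_three_way c a b h3 h1 hb (by omega)
    rw [show c + a + b = a + b + c by ring] at this; omega
  · have := B_three_way b a c h1 h3 hc (by omega)
    rw [show b + a + c = a + b + c by ring] at this; omega
  · have := B_three_way b c a h2 h3 ha (by omega)
    rw [show b + c + a = a + b + c by ring] at this; omega
  · have := B_three_way c b a h2 h1 ha (by omega)
    rw [show c + b + a = a + b + c by ring] at this; omega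
  · have := B_three_way c b a h2 h1 ha (by omega)
    rw [show c + b + a = a + b + c by ring] at this; omega

section

variable {ι : Type*} [DecidableEq ι]

/-- Sum over ordered pairs. -/
def tot (v : ι → ι → ℕ) (S : Finset ι) : ℕ := ∑ i ∈ S, ∑ j ∈ S, v i j

theorem tot_union (v : ι → ι → ℕ) (hs : ∀ i j, v i j = v j i) (S T : Finset ι)
    (hd : Disjoint S T) (e : ℕ) (hc : ∀ i ∈ S, ∀ j ∈ T, v i j = e) :
    tot v (S ∪ T) = tot v S + tot v T + 2 * e * (S.card * T.card) := by
  unfold tot
  rw [Finset.sum_union hd]
  have h1 : ∀ i ∈ S, ∑ j ∈ S ∪ T, v i j = ∑ j ∈ S, v i j + T.card * e := by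
    intro i hi
    rw [Finset.sum_union hd, Finset.sum_congr rfl (fun j hj => hc i hi j hj)]
    simp
  have h2 : ∀ i ∈ T, ∑ j ∈ S ∪ T, v i j = S.card * e + ∑ j ∈ T, v i j := by
    intro i hi
    rw [Finset.sum_union hd, Finset.sum_congr rfl
      (fun j hj => (hs i j).trans (hc j hj i hi))]
    simp
  rw [Finset.sum_congr rfl h1, Finset.sum_congr rfl h2, Finset.sum_add_distrib,
    Finset.sum_add_distrib]
  simp only [Finset.sum_const, smul_eq_mul]
  ring

theorem tot_three (v : ι → ι → ℕ) (hs : ∀ i j, v i j = v j i) (hdiag : ∀ i, v i i = 0)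
    (a b c : ι) (hab : a ≠ b) (hac : a ≠ c) (hbc : b ≠ c) :
    tot v {a, b, c} = 2 * (v a b + v a c + v b c) := by
  unfold tot
  have hb : b ∉ ({c} : Finset ι) := by simpa using hbc
  have ha : a ∉ ({b, c} : Finset ι) := by simp [hab, hac]
  rw [Finset.sum_insert ha, Finset.sum_insert hb, Finset.sum_singleton]
  simp only [Finset.sum_insert ha, Finset.sum_insert hb, Finset.sum_singleton, hdiag]
  rw [hs b a, hs c a, hs c b]; ring

/-- The tree lemma. -/
theorem tree (v : ι → ι → ℕ) (hs : ∀ i j, v i j = v j i) (hdiag : ∀ i, v i i = 0)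
    (U : ∀ i j k, i ≠ j → j ≠ k → i ≠ k → min (v i j) (v j k) ≤ v i k)
    (F : ∀ i j k l, i ≠ j → i ≠ k → i ≠ l → j ≠ k → j ≠ l → k ≠ l →
      v i j = v i k → v i j = v i l → v i j = v j k → v i j = v j l → v i j = v k l → False)
    (T : ∀ i j k l, i ≠ j → i ≠ k → i ≠ l → j ≠ k → j ≠ l → k ≠ l →
      v i j = v i k → v i j = v j k → v i l ≠ v i j →
      v i j + 3 ≤ v i l ∨ v i l + 3 ≤ v i j) :
    ∀ m : ℕ, m ≠ 3 → ∀ S : Finset ι, S.card = m → ∀ e : ℕ,
      (∀ i ∈ S, ∀ j ∈ S, i ≠ j → e ≤ v i j) →
      e * (m * (m - 1)) + 2 * B m ≤ tot v S := by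
  intro m
  induction m using Nat.strong_induction_on with
  | _ m ih =>
    intro hm3 S hS e he
    rcases Nat.lt_or_ge m 2 with hm2 | hm2
    · interval_cases m <;> simp [B]
    · -- minimal pair
      have hne : S.offDiag.Nonempty := by
        rw [← Finset.card_pos, Finset.offDiag_card, hS]
        have : m * 2 ≤ m * m := Nat.mul_le_mul_left m hm2
        omega
      obtain ⟨⟨i0, j0⟩, hmem, hmin⟩ := Finset.exists_min_image S.offDiag
        (fun q => v q.1 q.2) hne
      rw [Finset.mem_offDiag] at hmem
      obtain ⟨hi0, hj0, hij0⟩ := hmem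
      simp only at hi0 hj0 hij0
      set E : ℕ := v i0 j0 with hE
      have hminE : ∀ i ∈ S, ∀ j ∈ S, i ≠ j → E ≤ v i j := by
        intro i hi j hj hij
        exact hmin (i, j) (Finset.mem_offDiag.mpr ⟨hi, hj, hij⟩)
      have heE : e ≤ E := he i0 hi0 j0 hj0 hij0
      set S1 : Finset ι := S.filter (fun l => l = i0 ∨ E < v i0 l) with hS1
      set R : Finset ι := S.filter (fun l => ¬ (l = i0 ∨ E < v i0 l)) with hR
      have hSR : S1 ∪ R = S := Finset.filter_union_filter_not_eq _ S
      have hdisj : Disjoint S1 R := Finset.disjoint_filter_filter_not _ _ _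
      have hi0S1 : i0 ∈ S1 := by simp [hS1, hi0]
      have hj0R : j0 ∈ R := by
        simp only [hR, Finset.mem_filter]
        exact ⟨hj0, by rintro (h | h); exact hij0 h.symm; exact absurd h (lt_irrefl _)⟩
      have hRv : ∀ l ∈ R, l ∈ S ∧ l ≠ i0 ∧ v i0 l = E := by
        intro l hl
        simp only [hR, Finset.mem_filter, not_or, not_lt] at hl
        exact ⟨hl.1, hl.2.1, le_antisymm hl.2.2 (hminE i0 hi0 l hl.1 (Ne.symm hl.2.1))⟩
      have hS1v : ∀ l ∈ S1, l ∈ S ∧ (l = i0 ∨ E < v i0 l) := by
        intro l hl
        simpa [hS1] using hl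
      have cross1 : ∀ i ∈ S1, ∀ l ∈ R, v i l = E := by
        intro i hi l hl
        obtain ⟨hlS, hli0, hlE⟩ := hRv l hl
        obtain ⟨hiS, hi'⟩ := hS1v i hi
        rcases hi' with rfl | hi'
        · exact hlE
        · by_cases hii0 : i = i0
          · subst hii0; exact hlE
          have hil : i ≠ l := by
            rintro rfl
            exact (Finset.disjoint_left.mp hdisj hi) hl
          have h1 := hminE i hiS l hlS hil
          have h2 := U i0 i l (Ne.symm hii0) hil (Ne.symm hli0)
          rw [hlE] at h2
          rcases min_le_iff.mp h2 with h | h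
          · omega
          · omega
      have int1 : ∀ i ∈ S1, ∀ l ∈ S1, i ≠ l → E + 1 ≤ v i l := by
        intro i hi l hl hil
        obtain ⟨hiS, hi'⟩ := hS1v i hi
        obtain ⟨hlS, hl'⟩ := hS1v l hl
        by_cases hii0 : i = i0
        · subst hii0
          rcases hl' with h | h
          · exact absurd h.symm hil
          · exact h
        · by_cases hll0 : l = i0
          · subst hll0
            rcases hi' with h | h
            · exact absurd h hii0
            · rw [hs]; exact h
          · have h1 : E < v i0 i := by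
              rcases hi' with h | h
              · exact absurd h hii0
              · exact h
            have h2 : E < v i0 l := by
              rcases hl' with h | h
              · exact absurd h hll0
              · exact h
            have h3 := U i i0 l hii0 (Ne.symm hll0) hil
            rw [hs i i0] at h3
            rcases min_le_iff.mp h3 with h | h <;> omega
      set S2 : Finset ι := R.filter (fun l => l = j0 ∨ E < v j0 l) with hS2
      set S3 : Finset ι := R.filter (fun l => ¬ (l = j0 ∨ E < v j0 l)) with hS3
      have hR23 : S2 ∪ S3 = R := Finset.filter_union_filter_not_eq _ R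
      have hdisj' : Disjoint S2 S3 := Finset.disjoint_filter_filter_not _ _ _
      have hS2v : ∀ l ∈ S2, l ∈ R ∧ (l = j0 ∨ E < v j0 l) := by
        intro l hl
        simpa [hS2] using hl
      have hS3v : ∀ l ∈ S3, l ∈ R ∧ l ≠ j0 ∧ v j0 l = E := by
        intro l hl
        simp only [hS3, Finset.mem_filter, not_or, not_lt] at hl
        exact ⟨hl.1, hl.2.1, le_antisymm hl.2.2
          (hminE j0 hj0 l (hRv l hl.1).1 (Ne.symm hl.2.1))⟩
      have hj0S2 : j0 ∈ S2 := by simp [hS2, hj0R]
      have cross2 : ∀ i ∈ S2, ∀ l ∈ S3, v i l = E := by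
        intro i hi l hl
        obtain ⟨hlR, hlj0, hlE⟩ := hS3v l hl
        obtain ⟨hiR, hi'⟩ := hS2v i hi
        by_cases hij : i = j0
        · subst hij; exact hlE
        · have h1 : E < v j0 i := by
            rcases hi' with h | h
            · exact absurd h hij
            · exact h
          have hil : i ≠ l := by
            rintro rfl
            exact (Finset.disjoint_left.mp hdisj' hi) hl
          have h2 := hminE i (hRv i hiR).1 l (hRv l hlR).1 hil
          have h3 := U j0 i l (Ne.symm hij) hil (Ne.symm hlj0)
          rw [hlE] at h3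
          rcases min_le_iff.mp h3 with h | h <;> omega
      have int2 : ∀ i ∈ S2, ∀ l ∈ S2, i ≠ l → E + 1 ≤ v i l := by
        intro i hi l hl hil
        obtain ⟨hiS, hi'⟩ := hS2v i hi
        obtain ⟨hlS, hl'⟩ := hS2v l hl
        by_cases hii0 : i = j0
        · subst hii0
          rcases hl' with h | h
          · exact absurd h.symm hil
          · exact h
        · by_cases hll0 : l = j0
          · subst hll0
            rcases hi' with h | h
            · exact absurd h hii0
            · rw [hs]; exact h
          · have h1 : E < v j0 i := by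
              rcases hi' with h | h
              · exact absurd h hii0
              · exact h
            have h2 : E < v j0 l := by
              rcases hl' with h | h
              · exact absurd h hll0
              · exact h
            have h3 := U i j0 l hii0 (Ne.symm hll0) hil
            rw [hs i j0] at h3
            rcases min_le_iff.mp h3 with h | h <;> omega
      have htot1 : tot v S = tot v S1 + tot v R + 2 * E * (S1.card * R.card) := by
        rw [← hSR]; exact tot_union v hs S1 R hdisj E cross1
      have htot2 : tot v R = tot v S2 + tot v S3 + 2 * E * (S2.card * S3.card) := by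
        rw [← hR23]; exact tot_union v hs S2 S3 hdisj' E cross2
      have hcard1 : S1.card + R.card = m := by
        rw [← hS, ← hSR, Finset.card_union_of_disjoint hdisj]
      have hcard2 : S2.card + S3.card = R.card := by
        conv_rhs => rw [← hR23, Finset.card_union_of_disjoint hdisj']
      have hc1 : 0 < S1.card := Finset.card_pos.mpr ⟨i0, hi0S1⟩
      have hc2 : 0 < S2.card := Finset.card_pos.mpr ⟨j0, hj0S2⟩
      -- child bound in the two class case
      have child : ∀ Q : Finset ι, Q.card < m → (∀ i ∈ Q, ∀ l ∈ Q, i ≠ l → E + 1 ≤ v i l) →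
          (∀ i ∈ Q, ∃ l, l ∉ Q ∧ v i l = E) →
          (E + 1) * (Q.card * (Q.card - 1)) + 2 * B Q.card ≤ tot v Q := by
        intro Q hQ hint hout
        by_cases h3 : Q.card = 3
        · obtain ⟨a, b, c, hab, hac, hbc, rfl⟩ := Finset.card_eq_three.mp h3
          rw [h3, B_three, tot_three v hs hdiag a b c hab hac hbc]
          have e1 := hint a (by simp) b (by simp) hab
          have e2 := hint a (by simp) c (by simp) hac
          have e3 := hint b (by simp) c (by simp) hbc
          by_cases heq : v a b = v a c ∧ v a b = v b c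
          · obtain ⟨l, hl, hlE⟩ := hout a (by simp)
            have hla : a ≠ l := fun h => hl (by rw [← h]; simp)
            have hlb : b ≠ l := fun h => hl (by rw [← h]; simp)
            have hlc : c ≠ l := fun h => hl (by rw [← h]; simp)
            have := T a b c l hab hac hla hbc hlb hlc heq.1 heq.2 (by rw [hlE]; omega)
            rw [hlE] at this
            omega
          · have : ¬ (v a b = v a c ∧ v a b = v b c) := heq
            omega
        · exact ih Q.card hQ h3 Q rfl (E + 1) hint
      have hH : ∀ s, 2 * H s = s * (s - 1) + 2 * B s := by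
        intro s
        unfold H
        have : 2 * s.choose 2 = s * (s - 1) := by
          rw [Nat.choose_two_right]
          exact Nat.mul_div_cancel' (Nat.even_mul_pred_self s).two_dvd
        rw [mul_add, this]
      have hEm : e * (m * (m - 1)) ≤ E * (m * (m - 1)) := Nat.mul_le_mul_right _ heE
      rcases Finset.eq_empty_or_nonempty S3 with hS3e | ⟨k0, hk0⟩
      · -- two classes
        have hR2 : R = S2 := by rw [← hR23, hS3e, Finset.union_empty]
        have b1 := child S1 (by omega) int1 (fun i hi => ⟨j0, fun h =>
          (Finset.disjoint_left.mp hdisj h) hj0R, cross1 i hi j0 hj0R⟩)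
        have b2 := child S2 (by rw [← hR2]; omega) int2 (fun i hi => ⟨i0, fun h =>
          (Finset.disjoint_left.mp hdisj hi0S1) (by rw [hR2]; exact h), by
            rw [hs]; exact cross1 i0 hi0S1 i (by rw [hR2]; exact hi)⟩)
        rw [htot1, hR2]
        rw [hR2] at hcard1
        have hB := B_add_le S1.card S2.card
        have h1 := hH S1.card
        have h2 := hH S2.card
        rw [hcard1] at hB
        have hmm : m * (m - 1) = S1.card * (S1.card - 1) + S2.card * (S2.card - 1)
            + 2 * (S1.card * S2.card) := by
          obtain ⟨a, ha⟩ : ∃ a, S1.card = a + 1 := ⟨S1.card - 1, by omega⟩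
          obtain ⟨b, hb⟩ : ∃ b, S2.card = b + 1 := ⟨S2.card - 1, by omega⟩
          rw [← hcard1, ha, hb]
          have : a + 1 + (b + 1) - 1 = a + b + 1 := by omega
          rw [this]; simp only [Nat.add_sub_cancel]; ring
        calc e * (m * (m - 1)) + 2 * B m ≤ E * (m * (m - 1)) + (2 * H S1.card + 2 * H S2.card) := by
              omega
          _ = (E + 1) * (S1.card * (S1.card - 1)) + 2 * B S1.card
              + ((E + 1) * (S2.card * (S2.card - 1)) + 2 * B S2.card)
              + 2 * E * (S1.card * S2.card) := by
              rw [h1, h2, hmm]; ring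
          _ ≤ tot v S1 + tot v S2 + 2 * E * (S1.card * S2.card) := by omega
      · -- three classes
        obtain ⟨hk0R, hk0j, hk0E⟩ := hS3v k0 hk0
        obtain ⟨hk0S, hk0i, hk0iE⟩ := hRv k0 hk0R
        have int3 : ∀ i ∈ S3, ∀ l ∈ S3, i ≠ l → E + 3 ≤ v i l := by
          intro i hi l hl hil
          obtain ⟨hiR, hij, hiE⟩ := hS3v i hi
          obtain ⟨hlR, hlj, hlE⟩ := hS3v l hl
          obtain ⟨hiS, hii, hiiE⟩ := hRv i hiR
          obtain ⟨hlS, hli, hliE⟩ := hRv l hlR
          have h1 := hminE i hiS l hlS hil
          have h2 : v i l ≠ E := by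
            intro h
            exact F i0 j0 i l hij0 (Ne.symm hii) (Ne.symm hli) (Ne.symm hij) (Ne.symm hlj) hil
              (by rw [← hE, hiiE]) (by rw [← hE, hliE]) (by rw [← hE, hiE]) (by rw [← hE, hlE])
              (by rw [← hE, h])
          have h3 := T i i0 j0 l hii hij hil hij0 (Ne.symm hli) (Ne.symm hlj)
            (by rw [hs i i0, hiiE, hs i j0, hiE]) (by rw [hs i i0, hiiE])
            (by rw [hs i i0, hiiE]; exact h2)
          rw [hs i i0, hiiE] at h3
          omega
        have int1' : ∀ i ∈ S1, ∀ l ∈ S1, i ≠ l → E + 3 ≤ v i l := by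
          intro i hi l hl hil
          have h1 := int1 i hi l hl hil
          have hij : i ≠ j0 := fun h => (Finset.disjoint_left.mp hdisj hi) (by rw [h]; exact hj0R)
          have hik : i ≠ k0 := fun h => (Finset.disjoint_left.mp hdisj hi) (by rw [h]; exact hk0R)
          have hlj : j0 ≠ l := fun h => (Finset.disjoint_left.mp hdisj hl) (by rw [← h]; exact hj0R)
          have hlk : k0 ≠ l := fun h => (Finset.disjoint_left.mp hdisj hl) (by rw [← h]; exact hk0R)
          have h3 := T i j0 k0 l hij hik hil (Ne.symm hk0j) hlj hlk
            (by rw [cross1 i hi j0 hj0R, cross1 i hi k0 hk0R])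
            (by rw [cross1 i hi j0 hj0R, hk0E])
            (by rw [cross1 i hi j0 hj0R]; omega)
          rw [cross1 i hi j0 hj0R] at h3
          omega
        have int2' : ∀ i ∈ S2, ∀ l ∈ S2, i ≠ l → E + 3 ≤ v i l := by
          intro i hi l hl hil
          have h1 := int2 i hi l hl hil
          have hiR := (hS2v i hi).1
          have hlR := (hS2v l hl).1
          have hii : i ≠ i0 := (hRv i hiR).2.1
          have hli : i0 ≠ l := Ne.symm (hRv l hlR).2.1
          have hik : i ≠ k0 := fun h => (Finset.disjoint_left.mp hdisj' hi) (by rw [h]; exact hk0)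
          have hlk : k0 ≠ l := fun h => (Finset.disjoint_left.mp hdisj' hl) (by rw [← h]; exact hk0)
          have hiE : v i i0 = E := by rw [hs]; exact (hRv i hiR).2.2
          have h3 := T i i0 k0 l hii hik hil (Ne.symm hk0i) hli hlk
            (by rw [hiE, cross2 i hi k0 hk0])
            (by rw [hiE, hk0iE])
            (by rw [hiE]; omega)
          rw [hiE] at h3
          omega
        have hc3 : 0 < S3.card := Finset.card_pos.mpr ⟨k0, hk0⟩
        have child3 : ∀ Q : Finset ι, Q.card < m → (∀ i ∈ Q, ∀ l ∈ Q, i ≠ l → E + 3 ≤ v i l) →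
            (E + 3) * (Q.card * (Q.card - 1)) + 2 * B Q.card
              ≤ tot v Q + (if Q.card = 3 then 2 else 0) := by
          intro Q hQ hint
          by_cases h3 : Q.card = 3
          · obtain ⟨a, b, c, hab, hac, hbc, rfl⟩ := Finset.card_eq_three.mp h3
            rw [h3, B_three, tot_three v hs hdiag a b c hab hac hbc]
            have e1 := hint a (by simp) b (by simp) hab
            have e2 := hint a (by simp) c (by simp) hac
            have e3 := hint b (by simp) c (by simp) hbc
            rw [if_pos rfl]
            omega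
          · have := ih Q.card hQ h3 Q rfl (E + 3) hint
            omega
        have b1 := child3 S1 (by omega) int1'
        have b2 := child3 S2 (by omega) int2'
        have b3 := child3 S3 (by omega) int3
        have hm' : S1.card + S2.card + S3.card = m := by omega
        have hB := B_three_way' S1.card S2.card S3.card hc1 hc2 hc3 (by omega)
        rw [hm'] at hB
        have hmm : m * (m - 1) = S1.card * (S1.card - 1) + S2.card * (S2.card - 1)
            + S3.card * (S3.card - 1)
            + 2 * (S1.card * (S2.card + S3.card)) + 2 * (S2.card * S3.card) := by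
          obtain ⟨a, ha⟩ : ∃ a, S1.card = a + 1 := ⟨S1.card - 1, by omega⟩
          obtain ⟨b, hb⟩ : ∃ b, S2.card = b + 1 := ⟨S2.card - 1, by omega⟩
          obtain ⟨c, hc⟩ : ∃ c, S3.card = c + 1 := ⟨S3.card - 1, by omega⟩
          rw [← hm', ha, hb, hc]
          have : a + 1 + (b + 1) + (c + 1) - 1 = a + b + c + 2 := by omega
          rw [this]; simp only [Nat.add_sub_cancel]; ring
        rw [htot1, htot2, ← hcard2]
        have expand : E * (m * (m - 1)) + (3 * (S1.card * (S1.card - 1))
              + 3 * (S2.card * (S2.card - 1)) + 3 * (S3.card * (S3.card - 1))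
              + 2 * B S1.card + 2 * B S2.card + 2 * B S3.card)
            = ((E + 3) * (S1.card * (S1.card - 1)) + 2 * B S1.card)
              + ((E + 3) * (S2.card * (S2.card - 1)) + 2 * B S2.card)
              + ((E + 3) * (S3.card * (S3.card - 1)) + 2 * B S3.card)
              + 2 * E * (S1.card * (S2.card + S3.card)) + 2 * E * (S2.card * S3.card) := by
          rw [hmm]; ring
        omega

end

end H27.E8
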