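import Pool.Agent.H27.E8.Local
import Pool.Agent.H27.E8.Tree

namespace H27.E8

open Finset

/-- Core of the split case for an arbitrary prime. -/
theorem split_core (p : ℕ) (hp : p.Prime) (c : ℤ) (hc : ¬ (p : ℤ) ∣ c)
    (n : ℕ) (u w : Fin (n + 1) → ℤ) (d : Fin (n + 1) → Fin (n + 1) → ℕ)
    (k : ℕ) (hk : p ^ k ∣ n.superFactorial)
    (hd : ∀ i j, (p : ℤ) ^ (2 * k) ∣ (c * d i j) ^ 2 - (u j - u i) * (w j - w i)) :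
    p ^ k ∣ ∏ i, ∏ j ∈ Ioi i, d i j := by
  have hpi : Prime (p : ℤ) := Nat.prime_iff_prime_int.mp hp
  have hV1 := Matrix.superFactorial_dvd_vandermonde_det u
  have hV2 := Matrix.superFactorial_dvd_vandermonde_det w
  rw [Matrix.det_vandermonde] at hV1 hV2
  have h3 : ((p : ℤ)) ^ k ∣ (n.superFactorial : ℤ) := by exact_mod_cast hk
  have h12 : (p : ℤ) ^ (2 * k) ∣
      (∏ i : Fin (n + 1), ∏ j ∈ Ioi i, (u j - u i)) *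
      (∏ i : Fin (n + 1), ∏ j ∈ Ioi i, (w j - w i)) := by
    rw [two_mul, pow_add]
    exact mul_dvd_mul (h3.trans hV1) (h3.trans hV2)
  have hprod : (∏ i : Fin (n + 1), ∏ j ∈ Ioi i, (u j - u i)) *
      (∏ i : Fin (n + 1), ∏ j ∈ Ioi i, (w j - w i))
      = ∏ i : Fin (n + 1), ∏ j ∈ Ioi i, ((u j - u i) * (w j - w i)) := by
    rw [← Finset.prod_mul_distrib]
    apply Finset.prod_congr rfl
    intro i _
    rw [← Finset.prod_mul_distrib]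
  rw [hprod] at h12
  have hmod : (∏ i : Fin (n + 1), ∏ j ∈ Ioi i, ((u j - u i) * (w j - w i)))
      ≡ ∏ i : Fin (n + 1), ∏ j ∈ Ioi i, (c * (d i j : ℤ)) ^ 2 [ZMOD ((p : ℤ) ^ (2 * k))] := by
    have aux : ∀ {ι : Type} (S : Finset ι) (f g : ι → ℤ) (M : ℤ),
        (∀ i ∈ S, f i ≡ g i [ZMOD M]) → ∏ i ∈ S, f i ≡ ∏ i ∈ S, g i [ZMOD M] := by
      intro ι S f g M h
      classical
      induction S using Finset.induction_on with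
      | empty => simp [Int.ModEq.refl]
      | insert a S ha ih =>
        rw [Finset.prod_insert ha, Finset.prod_insert ha]
        exact Int.ModEq.mul (h a (mem_insert_self _ _))
          (ih (fun i hi => h i (mem_insert_of_mem hi)))
    apply aux
    intro i _
    apply aux
    intro j _
    rw [Int.modEq_iff_dvd]
    exact hd i j
  have h4 : (p : ℤ) ^ (2 * k) ∣ ∏ i : Fin (n + 1), ∏ j ∈ Ioi i, (c * (d i j : ℤ)) ^ 2 :=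
    (Int.ModEq.dvd_iff hmod).mp h12
  have h5 : (∏ i : Fin (n + 1), ∏ j ∈ Ioi i, (c * (d i j : ℤ)) ^ 2)
      = ((∏ i : Fin (n + 1), ∏ j ∈ Ioi i, c) * (∏ i : Fin (n + 1), ∏ j ∈ Ioi i, (d i j : ℤ))) ^ 2 := by
    rw [← Finset.prod_mul_distrib, ← Finset.prod_pow]
    apply Finset.prod_congr rfl
    intro i _
    rw [← Finset.prod_mul_distrib, ← Finset.prod_pow]
  rw [h5, mul_comm 2 k, pow_mul] at h4
  have h6 : (p : ℤ) ^ k ∣ (∏ i : Fin (n + 1), ∏ j ∈ Ioi i, c)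
      * (∏ i : Fin (n + 1), ∏ j ∈ Ioi i, (d i j : ℤ)) :=
    (Int.pow_dvd_pow_iff two_ne_zero).mp h4
  have hM : ¬ (p : ℤ) ∣ ∏ i : Fin (n + 1), ∏ j ∈ Ioi i, c := by
    intro h
    obtain ⟨i, _, hi⟩ := (Prime.dvd_finsetProd_iff hpi _).mp h
    obtain ⟨j, _, hj⟩ := (Prime.dvd_finsetProd_iff hpi _).mp hi
    exact hc hj
  have hcop : IsCoprime ((p : ℤ) ^ k) (∏ i : Fin (n + 1), ∏ j ∈ Ioi i, c) :=
    IsCoprime.pow_left ((Prime.coprime_iff_not_dvd hpi).mpr hM)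
  have hfin := hcop.dvd_of_dvd_mul_left h6
  have hcast : (∏ i : Fin (n + 1), ∏ j ∈ Ioi i, (d i j : ℤ))
      = ((∏ i : Fin (n + 1), ∏ j ∈ Ioi i, d i j : ℕ) : ℤ) := by push_cast; rfl
  rw [hcast] at hfin
  exact_mod_cast hfin

theorem sqrt_two_adic (D : ℤ) (hD : D % 8 = 7) : ∀ N : ℕ, ∃ s : ℤ, s % 2 = 1 ∧ (2 : ℤ) ^ N ∣ s ^ 2 + D := by
  have key : ∀ N : ℕ, ∃ s : ℤ, s % 2 = 1 ∧ (2 : ℤ) ^ (N + 3) ∣ s ^ 2 + D := by
    intro N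
    induction N with
    | zero =>
      refine ⟨1, by norm_num, ?_⟩
      norm_num
      omega
    | succ N ih =>
      obtain ⟨s, hs, q, hq⟩ := ih
      rcases Int.even_or_odd' q with ⟨r, hr | hr⟩
      · refine ⟨s, hs, r, ?_⟩
        rw [hq, hr]; ring
      · obtain ⟨s', hs'⟩ : ∃ s', s = 2 * s' + 1 := ⟨s / 2, by omega⟩
        refine ⟨s + 2 ^ (N + 2), ?_, r + s' + 1 + 2 ^ N, ?_⟩
        · have : (2 : ℤ) ^ (N + 2) = 2 * 2 ^ (N + 1) := by ring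
          rw [this]; omega
        · have h1 : (s + 2 ^ (N + 2)) ^ 2 + D
              = (s ^ 2 + D) + 2 ^ (N + 3) * s + 2 ^ (N + 3) * 2 ^ (N + 1) := by ring
          rw [h1, hq, hr, hs']; ring
  intro N
  obtain ⟨s, hs, hd⟩ := key N
  exact ⟨s, hs, (pow_dvd_pow _ (by omega)).trans hd⟩

/-- Divisibility by powers of two for the norm form `X^2+XY+cY^2`, `c` odd. -/
theorem norm_pow_dvd (c : ℤ) (hc : c % 2 = 1) : ∀ (k : ℕ) (X Y z : ℤ),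
    z ^ 2 = X ^ 2 + X * Y + c * Y ^ 2 → (2 : ℤ) ^ k ∣ z → (2 : ℤ) ^ k ∣ X ∧ (2 : ℤ) ^ k ∣ Y := by
  intro k
  induction k with
  | zero => intro X Y z _ _; simp
  | succ k ih =>
    intro X Y z hz hk
    have h2 : (2 : ℤ) ∣ z := (dvd_pow_self 2 (Nat.succ_ne_zero k)).trans hk
    obtain ⟨z', rfl⟩ := h2
    obtain ⟨c', hc'⟩ : ∃ c', c = 2 * c' + 1 := ⟨c / 2, by omega⟩
    have hpar : (2 : ℤ) ∣ X ∧ (2 : ℤ) ∣ Y := by
      rcases Int.even_or_odd' X with ⟨x, hx | hx⟩ <;> rcases Int.even_or_odd' Y with ⟨y, hy | hy⟩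
      · exact ⟨⟨x, hx⟩, ⟨y, hy⟩⟩
      · exfalso; rw [hx, hy, hc'] at hz; ring_nf at hz; omega
      · exfalso; rw [hx, hy, hc'] at hz; ring_nf at hz; omega
      · exfalso; rw [hx, hy, hc'] at hz; ring_nf at hz; omega
    obtain ⟨⟨x, rfl⟩, ⟨y, rfl⟩⟩ := hpar
    have hz' : z' ^ 2 = x ^ 2 + x * y + c * y ^ 2 := by linarith [hz]
    have hk' : (2 : ℤ) ^ k ∣ z' := by
      rw [pow_succ'] at hk
      exact Int.dvd_of_mul_dvd_mul_left (by norm_num) hk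
    obtain ⟨h1, h2⟩ := ih x y z' hz' hk'
    rw [pow_succ']
    exact ⟨mul_dvd_mul_left 2 h1, mul_dvd_mul_left 2 h2⟩

theorem odd_sq_mod (t : ℤ) (ht : t % 2 = 1) : t ^ 2 % 8 = 1 := by
  have h : t % 8 = 1 ∨ t % 8 = 3 ∨ t % 8 = 5 ∨ t % 8 = 7 := by omega
  rcases h with h | h | h | h <;> rw [pow_two, Int.mul_emod, h] <;> norm_num

/-- Lemma K. -/
theorem lemmaK (c u1 u2 t1 t2 : ℤ) (e : ℕ) (he : e = 1 ∨ e = 2)
    (hu : (u1 ^ 2 + u1 * u2 + c * u2 ^ 2) % 8 = 1)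
    (hut : ((u1 - 2 ^ e * t1) ^ 2 + (u1 - 2 ^ e * t1) * (u2 - 2 ^ e * t2)
      + c * (u2 - 2 ^ e * t2) ^ 2) % 8 = 1) :
    (u1 * t2 + u2 * t1) % 2 = 0 := by
  set T : ℤ := 2 * (u1 * t1) + u1 * t2 + u2 * t1 + 2 * (c * u2 * t2) with hT
  set M : ℤ := t1 ^ 2 + t1 * t2 + c * t2 ^ 2 with hM
  rcases he with rfl | rfl
  · have h : (u1 - 2 ^ 1 * t1) ^ 2 + (u1 - 2 ^ 1 * t1) * (u2 - 2 ^ 1 * t2)
      + c * (u2 - 2 ^ 1 * t2) ^ 2 = (u1 ^ 2 + u1 * u2 + c * u2 ^ 2) - 2 * T + 4 * M := by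
      simp only [hT, hM]; ring
    rw [h] at hut
    omega
  · have h : (u1 - 2 ^ 2 * t1) ^ 2 + (u1 - 2 ^ 2 * t1) * (u2 - 2 ^ 2 * t2)
      + c * (u2 - 2 ^ 2 * t2) ^ 2 = (u1 ^ 2 + u1 * u2 + c * u2 ^ 2) - 4 * T + 16 * M := by
      simp only [hT, hM]; ring
    rw [h] at hut
    omega

/-- Two classes parallel to the same nonzero class differ by a multiple of two. -/
theorem parallel (c u1 u2 w1 w2 t1 t2 : ℤ) (hc : c % 2 = 1)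
    (hu : (u1 ^ 2 + u1 * u2 + c * u2 ^ 2) % 8 = 1)
    (hw : (w1 ^ 2 + w1 * w2 + c * w2 ^ 2) % 8 = 1)
    (ht : (t1 ^ 2 + t1 * t2 + c * t2 ^ 2) % 8 = 1)
    (huw : ((u1 - w1) ^ 2 + (u1 - w1) * (u2 - w2) + c * (u2 - w2) ^ 2) % 8 = 1)
    (h1 : (u1 * t2 + u2 * t1) % 2 = 0) (h2 : (w1 * t2 + w2 * t1) % 2 = 0) : False := by
  obtain ⟨c', rfl⟩ : ∃ c', c = 2 * c' + 1 := ⟨c / 2, by omega⟩
  rcases Int.even_or_odd' u1 with ⟨a1, ha1 | ha1⟩ <;>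
  rcases Int.even_or_odd' u2 with ⟨a2, ha2 | ha2⟩ <;>
  rcases Int.even_or_odd' w1 with ⟨b1, hb1 | hb1⟩ <;>
  rcases Int.even_or_odd' w2 with ⟨b2, hb2 | hb2⟩ <;>
  rcases Int.even_or_odd' t1 with ⟨e1, he1 | he1⟩ <;>
  rcases Int.even_or_odd' t2 with ⟨e2, he2 | he2⟩ <;>
  subst ha1 ha2 hb1 hb2 he1 he2 <;> ring_nf at hu hw ht huw h1 h2 <;> omega

/-- Four points with pairwise odd distances do not exist. -/
theorem no_four (c u1 u2 w1 w2 t1 t2 : ℤ)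
    (hu : (u1 ^ 2 + u1 * u2 + c * u2 ^ 2) % 8 = 1)
    (hw : (w1 ^ 2 + w1 * w2 + c * w2 ^ 2) % 8 = 1)
    (ht : (t1 ^ 2 + t1 * t2 + c * t2 ^ 2) % 8 = 1)
    (huw : ((u1 - w1) ^ 2 + (u1 - w1) * (u2 - w2) + c * (u2 - w2) ^ 2) % 8 = 1)
    (hut : ((u1 - t1) ^ 2 + (u1 - t1) * (u2 - t2) + c * (u2 - t2) ^ 2) % 8 = 1)
    (hwt : ((w1 - t1) ^ 2 + (w1 - t1) * (w2 - t2) + c * (w2 - t2) ^ 2) % 8 = 1) : False := by
  obtain ⟨a, ha⟩ : ∃ a, u1 ^ 2 + u1 * u2 + c * u2 ^ 2 = 8 * a + 1 :=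
    ⟨(u1 ^ 2 + u1 * u2 + c * u2 ^ 2) / 8, by omega⟩
  obtain ⟨b, hb⟩ : ∃ b, w1 ^ 2 + w1 * w2 + c * w2 ^ 2 = 8 * b + 1 :=
    ⟨(w1 ^ 2 + w1 * w2 + c * w2 ^ 2) / 8, by omega⟩
  obtain ⟨e, he⟩ : ∃ e, t1 ^ 2 + t1 * t2 + c * t2 ^ 2 = 8 * e + 1 :=
    ⟨(t1 ^ 2 + t1 * t2 + c * t2 ^ 2) / 8, by omega⟩
  obtain ⟨f, hf⟩ : ∃ f, (u1 - w1) ^ 2 + (u1 - w1) * (u2 - w2) + c * (u2 - w2) ^ 2 = 8 * f + 1 :=
    ⟨((u1 - w1) ^ 2 + (u1 - w1) * (u2 - w2) + c * (u2 - w2) ^ 2) / 8, by omega⟩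
  obtain ⟨g, hg⟩ : ∃ g, (u1 - t1) ^ 2 + (u1 - t1) * (u2 - t2) + c * (u2 - t2) ^ 2 = 8 * g + 1 :=
    ⟨((u1 - t1) ^ 2 + (u1 - t1) * (u2 - t2) + c * (u2 - t2) ^ 2) / 8, by omega⟩
  obtain ⟨h, hh⟩ : ∃ h, (w1 - t1) ^ 2 + (w1 - t1) * (w2 - t2) + c * (w2 - t2) ^ 2 = 8 * h + 1 :=
    ⟨((w1 - t1) ^ 2 + (w1 - t1) * (w2 - t2) + c * (w2 - t2) ^ 2) / 8, by omega⟩
  -- Gram matrix entries
  set g11 : ℤ := 2 * (u1 ^ 2 + u1 * u2 + c * u2 ^ 2) with hg11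
  set g22 : ℤ := 2 * (w1 ^ 2 + w1 * w2 + c * w2 ^ 2) with hg22
  set g33 : ℤ := 2 * (t1 ^ 2 + t1 * t2 + c * t2 ^ 2) with hg33
  set g12 : ℤ := 2 * u1 * w1 + u1 * w2 + u2 * w1 + 2 * c * u2 * w2 with hg12
  set g13 : ℤ := 2 * u1 * t1 + u1 * t2 + u2 * t1 + 2 * c * u2 * t2 with hg13
  set g23 : ℤ := 2 * w1 * t1 + w1 * t2 + w2 * t1 + 2 * c * w2 * t2 with hg23
  have hdet : g11 * g22 * g33 + 2 * g12 * g13 * g23 - g11 * g23 ^ 2 - g22 * g13 ^ 2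
      - g33 * g12 ^ 2 = 0 := by
    simp only [hg11, hg22, hg33, hg12, hg13, hg23]; ring
  have e11 : g11 = 16 * a + 2 := by rw [hg11, ha]; ring
  have e22 : g22 = 16 * b + 2 := by rw [hg22, hb]; ring
  have e33 : g33 = 16 * e + 2 := by rw [hg33, he]; ring
  have e12 : g12 = 8 * (a + b - f) + 1 := by
    have : g12 = (u1 ^ 2 + u1 * u2 + c * u2 ^ 2) + (w1 ^ 2 + w1 * w2 + c * w2 ^ 2)
      - ((u1 - w1) ^ 2 + (u1 - w1) * (u2 - w2) + c * (u2 - w2) ^ 2) := by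
      simp only [hg12]; ring
    rw [this, ha, hb, hf]; ring
  have e13 : g13 = 8 * (a + e - g) + 1 := by
    have : g13 = (u1 ^ 2 + u1 * u2 + c * u2 ^ 2) + (t1 ^ 2 + t1 * t2 + c * t2 ^ 2)
      - ((u1 - t1) ^ 2 + (u1 - t1) * (u2 - t2) + c * (u2 - t2) ^ 2) := by
      simp only [hg13]; ring
    rw [this, ha, he, hg]; ring
  have e23 : g23 = 8 * (b + e - h) + 1 := by
    have : g23 = (w1 ^ 2 + w1 * w2 + c * w2 ^ 2) + (t1 ^ 2 + t1 * t2 + c * t2 ^ 2)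
      - ((w1 - t1) ^ 2 + (w1 - t1) * (w2 - t2) + c * (w2 - t2) ^ 2) := by
      simp only [hg23]; ring
    rw [this, hb, he, hh]; ring
  rw [e11, e22, e33, e12, e13, e23] at hdet
  ring_nf at hdet
  omega

end H27.E8
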